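import Mathlib

set_option autoImplicit false

/-!
# Almost self-centered graphs and the `r`-ASC index
-/

namespace Q122

/-- `H` is an `r`-ASC graph: it is connected, has radius `r` and exactly two of its vertices are
not central. -/
structure IsASC {W : Type} (H : SimpleGraph W) (r : ℕ) : Prop where
  connected : H.Connected
  radius : H.radius = r
  noncentral : (H.center)ᶜ.ncard = 2

/-- The `r`-ASC index `θ_r(G)`: the least `k` such that some `r`-ASC graph with `|V(G)| + k`
vertices contains `G` as an induced subgraph. -/
noncomputable def ascIndex {V : Type} [Fintype V] (r : ℕ) (G : SimpleGraph V) : ℕ :=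
  sInf {k | ∃ (W : Type) (_ : Fintype W) (H : SimpleGraph W),
    Fintype.card W = Fintype.card V + k ∧ IsASC H r ∧ Nonempty (G ↪g H)}

/-- The probability that the uniformly random labelled graph on `n` vertices has the property
`P`. -/
noncomputable def graphProb (n : ℕ) (P : SimpleGraph (Fin n) → Prop) : ℝ :=
  (Nat.card {G : SimpleGraph (Fin n) // P G} : ℝ) / Nat.card (SimpleGraph (Fin n))

end Q122
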