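import Pool.Agent.Q122.AscDefs

set_option autoImplicit false

namespace Q122.Asc

variable {V : Type}

/-- A level function computes the distances from the source `s`. -/
lemma edist_eq {W : Type} (H : SimpleGraph W) (s : W) (l : W → ℕ) (h0 : l s = 0)
    (h1 : ∀ v w, H.Adj v w → l w ≤ l v + 1)
    (h2 : ∀ v, v ≠ s → ∃ w, H.Adj w v ∧ l v = l w + 1) (v : W) :
    H.edist s v = l v := by
  have hwalk : ∀ (n : ℕ) (v : W), l v = n → ∃ p : H.Walk s v, p.length = n := by
    intro n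
    induction n with
    | zero =>
      intro v hv
      by_cases huv : v = s
      · subst huv
        exact ⟨SimpleGraph.Walk.nil, rfl⟩
      · obtain ⟨w, _, hw⟩ := h2 v huv
        omega
    | succ n ih =>
      intro v hv
      by_cases huv : v = s
      · subst huv
        omega
      · obtain ⟨w, hwv, hw⟩ := h2 v huv
        obtain ⟨p, hp⟩ := ih w (by omega)
        exact ⟨p.concat hwv, by rw [SimpleGraph.Walk.length_concat, hp]⟩
  have hle : ∀ (a b : W) (p : H.Walk a b) , l b ≤ l a + p.length := by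
    intro a b p
    induction p with
    | nil => simp
    | cons h p ih =>
      rw [SimpleGraph.Walk.length_cons]
      have := h1 _ _ h
      omega
  obtain ⟨p, hp⟩ := hwalk _ v rfl
  apply le_antisymm
  · rw [← hp]
    exact H.edist_le p
  · obtain ⟨q, hq⟩ := SimpleGraph.Reachable.exists_walk_length_eq_edist ⟨p⟩
    have := hle _ _ q
    rw [h0] at this
    rw [← hq]
    exact_mod_cast (by omega : l v ≤ q.length)

lemma eccent_eq {W : Type} (H : SimpleGraph W) (s : W) (l : W → ℕ) (k : ℕ) (h0 : l s = 0)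
    (h1 : ∀ v w, H.Adj v w → l w ≤ l v + 1)
    (h2 : ∀ v, v ≠ s → ∃ w, H.Adj w v ∧ l v = l w + 1) (h3 : ∀ v, l v ≤ k)
    (h4 : ∃ v, l v = k) : H.eccent s = k := by
  apply le_antisymm
  · rw [SimpleGraph.eccent_le_iff]
    intro v
    rw [edist_eq H s l h0 h1 h2]
    exact_mod_cast h3 v
  · obtain ⟨v, hv⟩ := h4
    rw [← hv, ← edist_eq H s l h0 h1 h2 v]
    exact SimpleGraph.edist_le_eccent

/-- Adjacency between the old vertices and the new vertices `0`, `1`, `2`. -/
def link (N : V → Prop) (z : V) (u : V) (i : Fin 3) : Prop := (i = 1 ∧ N u) ∨ (i = 2 ∧ u = z)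

/-- The extension of `G` by three new vertices. -/
def ext (G : SimpleGraph V) (N : V → Prop) (z : V) : SimpleGraph (V ⊕ Fin 3) where
  Adj x y := match x, y with
    | Sum.inl u, Sum.inl v => G.Adj u v
    | Sum.inl u, Sum.inr i => link N z u i
    | Sum.inr i, Sum.inl u => link N z u i
    | Sum.inr i, Sum.inr j => i ≠ j ∧ (i = 0 ∨ j = 0)
  symm := ⟨by
    rintro (u | i) (v | j) h
    · exact h.symm
    · exact h
    · exact h
    · exact ⟨h.1.symm, h.2.symm⟩⟩
  loopless := ⟨by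
    rintro (u | i) h
    · exact G.irrefl h
    · exact h.1 rfl⟩

/-- The level function with values `f` on old vertices and `r` on the new ones. -/
lemma ecc_ext (G : SimpleGraph V) (N : V → Prop) (z : V) (s : V ⊕ Fin 3) (f : V → ℕ)
    (r0 r1 r2 k : ℕ) (hs : Sum.elim f ![r0, r1, r2] s = 0)
    (L1 : ∀ u v, G.Adj u v → f v ≤ f u + 1)
    (L2 : ∀ u, N u → f u ≤ r1 + 1 ∧ r1 ≤ f u + 1)
    (L3 : f z ≤ r2 + 1 ∧ r2 ≤ f z + 1)
    (L4 : r1 ≤ r0 + 1 ∧ r0 ≤ r1 + 1 ∧ r2 ≤ r0 + 1 ∧ r0 ≤ r2 + 1)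
    (D1 : ∀ v, Sum.inl v ≠ s → (∃ u, G.Adj u v ∧ f v = f u + 1) ∨ (N v ∧ f v = r1 + 1) ∨
      (v = z ∧ f v = r2 + 1))
    (D2 : Sum.inr 0 ≠ s → r0 = r1 + 1 ∨ r0 = r2 + 1)
    (D3 : Sum.inr 1 ≠ s → r1 = r0 + 1 ∨ ∃ u, N u ∧ r1 = f u + 1)
    (D4 : Sum.inr 2 ≠ s → r2 = r0 + 1 ∨ r2 = f z + 1)
    (h3 : (∀ v, f v ≤ k) ∧ r0 ≤ k ∧ r1 ≤ k ∧ r2 ≤ k)
    (h4 : (∃ v, f v = k) ∨ r0 = k ∨ r1 = k ∨ r2 = k) : (ext G N z).eccent s = k := by
  apply eccent_eq _ s (Sum.elim f ![r0, r1, r2]) k hs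
  · rintro (u | i) (v | j) h
    · exact L1 u v h
    · rcases h with ⟨rfl, h⟩ | ⟨rfl, rfl⟩
      · exact (L2 u h).2
      · exact L3.2
    · rcases h with ⟨rfl, h⟩ | ⟨rfl, rfl⟩
      · exact (L2 v h).1
      · exact L3.1
    · obtain ⟨h5, h6⟩ := h
      fin_cases i <;> fin_cases j <;> simp at h5 h6 ⊢ <;> omega
  · rintro (v | i) hv
    · rcases D1 v hv with ⟨u, hu, h⟩ | ⟨hu, h⟩ | ⟨rfl, h⟩
      · exact ⟨Sum.inl u, hu, h⟩
      · exact ⟨Sum.inr 1, Or.inl ⟨rfl, hu⟩, h⟩
      · exact ⟨Sum.inr 2, Or.inr ⟨rfl, rfl⟩, h⟩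
    · fin_cases i
      · rcases D2 hv with h | h
        · exact ⟨Sum.inr 1, ⟨by decide, by decide⟩, h⟩
        · exact ⟨Sum.inr 2, ⟨by decide, by decide⟩, h⟩
      · rcases D3 hv with h | ⟨u, hu, h⟩
        · exact ⟨Sum.inr 0, ⟨by decide, by decide⟩, h⟩
        · exact ⟨Sum.inl u, Or.inl ⟨rfl, hu⟩, h⟩
      · rcases D4 hv with h | h
        · exact ⟨Sum.inr 0, ⟨by decide, by decide⟩, h⟩
        · exact ⟨Sum.inl z, Or.inr ⟨rfl, rfl⟩, h⟩
  · rintro (v | i)
    · exact h3.1 v
    · fin_cases i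
      · exact h3.2.1
      · exact h3.2.2.1
      · exact h3.2.2.2
  · rcases h4 with ⟨v, hv⟩ | h | h | h
    · exact ⟨Sum.inl v, hv⟩
    · exact ⟨Sum.inr 0, h⟩
    · exact ⟨Sum.inr 1, h⟩
    · exact ⟨Sum.inr 2, h⟩

/-- Hypotheses on the pair `z`, `w`. -/
structure Good (G : SimpleGraph V) (z w : V) : Prop where
  ne : z ≠ w
  nadj : ¬ G.Adj z w
  com : ∀ u v, u ≠ v → ¬ G.Adj u v → ∃ x, G.Adj u x ∧ G.Adj x v
  dom : ∀ u, u ≠ z → u ≠ w → ∃ x, x ≠ z ∧ x ≠ w ∧ ¬ G.Adj x z ∧ ¬ G.Adj x w ∧ G.Adj x u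
  nonempty : ∃ x, x ≠ z ∧ x ≠ w ∧ ¬ G.Adj x z ∧ ¬ G.Adj x w

/-- The common non-neighbours of `z` and `w`. -/
def NN (G : SimpleGraph V) (z w : V) (x : V) : Prop :=
  x ≠ z ∧ x ≠ w ∧ ¬ G.Adj x z ∧ ¬ G.Adj x w

open Classical in
/-- Distances inside `G`. -/
noncomputable def dd (G : SimpleGraph V) (u v : V) : ℕ :=
  if v = u then 0 else if G.Adj u v then 1 else 2

lemma dd_self (G : SimpleGraph V) (u : V) : dd G u u = 0 := by simp [dd]

lemma dd_le (G : SimpleGraph V) (u v : V) : dd G u v ≤ 2 := by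
  unfold dd; split_ifs <;> omega

lemma dd_adj (G : SimpleGraph V) {u v : V} (h : G.Adj u v) : dd G u v = 1 := by
  unfold dd
  rw [if_neg (G.ne_of_adj h).symm, if_pos h]

lemma dd_nadj (G : SimpleGraph V) {u v : V} (h : ¬ G.Adj u v) (hne : v ≠ u) : dd G u v = 2 := by
  unfold dd
  rw [if_neg hne, if_neg h]

lemma dd_pos (G : SimpleGraph V) {u v : V} (hne : v ≠ u) : 1 ≤ dd G u v := by
  unfold dd
  rw [if_neg hne]
  split_ifs <;> omega

lemma dd_lip (G : SimpleGraph V) (s u v : V) (h : G.Adj u v) : dd G s v ≤ dd G s u + 1 := by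
  by_cases h1 : u = s
  · subst h1
    rw [dd_adj G h]
    omega
  · have := dd_pos G h1
    have := dd_le G s v
    omega

lemma dd_desc (G : SimpleGraph V) (com : ∀ u v, u ≠ v → ¬ G.Adj u v → ∃ x, G.Adj u x ∧ G.Adj x v)
    (s v : V) (h : v ≠ s) : ∃ u, G.Adj u v ∧ dd G s v = dd G s u + 1 := by
  by_cases h1 : G.Adj s v
  · exact ⟨s, h1, by rw [dd_adj G h1, dd_self]⟩
  · obtain ⟨x, hx1, hx2⟩ := com s v h.symm h1
    exact ⟨x, hx2, by rw [dd_nadj G h1 h, dd_adj G hx1]⟩

variable {G : SimpleGraph V} {z w : V}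

open Classical in
/-- Eccentricity of the new vertex `0`. -/
lemma ecc_a (h : Good G z w) : (ext G (NN G z w) z).eccent (Sum.inr 0) = 4 := by
  obtain ⟨x0, hx1, hx2⟩ := h.com z w h.ne h.nadj
  have hz : ∀ v, v ≠ z → v ≠ w → ¬ NN G z w v → ∃ u, NN G z w u ∧ G.Adj u v := by
    intro v h1 h2 _
    obtain ⟨u, a, b, c, d, e⟩ := h.dom v h1 h2
    exact ⟨u, ⟨a, b, c, d⟩, e⟩
  refine ecc_ext G (NN G z w) z (Sum.inr 0)
    (fun v => if v = z then 2 else if v = w then 4 else if NN G z w v then 2 else 3)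
    0 1 1 4 rfl ?_ ?_ ?_ (by omega) ?_ (by simp) (fun _ => Or.inl rfl) (fun _ => Or.inl rfl) ?_ ?_
  · intro u v huv
    by_cases hv : v = w
    · subst hv
      have h1 : u ≠ z := fun h2 => h.nadj (h2 ▸ huv)
      have h2 : u ≠ v := G.ne_of_adj huv
      have h3 : ¬ NN G z v u := fun h3 => h3.2.2.2 huv
      simp [h1, h2, h3, h.ne.symm]
    · simp only [hv, if_false]
      split_ifs <;> omega
  · intro u hu
    have h1 := hu.1
    have h2 := hu.2.1
    simp [h1, h2, hu]
  · simp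
  · intro v _
    by_cases h1 : v = z
    · right; right; exact ⟨h1, by simp [h1]⟩
    · by_cases h2 : v = w
      · left
        refine ⟨x0, h2 ▸ hx2, ?_⟩
        have h3 : x0 ≠ z := (G.ne_of_adj hx1).symm
        have h4 : x0 ≠ w := G.ne_of_adj hx2
        have h5 : ¬ NN G z w x0 := fun h5 => h5.2.2.2 hx2
        subst h2
        simp [h3, h4, h5, h1]
      · by_cases h3 : NN G z w v
        · right; left; exact ⟨h3, by simp [h1, h2, h3]⟩
        · left
          obtain ⟨u, hu, huv⟩ := hz v h1 h2 h3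
          refine ⟨u, huv, ?_⟩
          simp [h1, h2, h3, hu.1, hu.2.1, hu]
  · refine ⟨fun v => ?_, by omega⟩
    split_ifs <;> omega
  · left
    exact ⟨w, by simp [h.ne.symm]⟩

open Classical in
/-- Eccentricity of the new vertex `1`. -/
lemma ecc_b (h : Good G z w) : (ext G (NN G z w) z).eccent (Sum.inr 1) = 3 := by
  obtain ⟨x0, hx1, hx2⟩ := h.com z w h.ne h.nadj
  have e3 : x0 ≠ z := (G.ne_of_adj hx1).symm
  have e4 : x0 ≠ w := G.ne_of_adj hx2
  have e5 : ¬ NN G z w x0 := fun h5 => h5.2.2.2 hx2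
  have hz : ∀ v, v ≠ z → v ≠ w → ¬ NN G z w v → ∃ u, NN G z w u ∧ G.Adj u v := by
    intro v h1 h2 _
    obtain ⟨u, a, b, c, d, e⟩ := h.dom v h1 h2
    exact ⟨u, ⟨a, b, c, d⟩, e⟩
  refine ecc_ext G (NN G z w) z (Sum.inr 1)
    (fun v => if v = z then 3 else if v = w then 3 else if NN G z w v then 1 else 2)
    1 0 2 3 rfl ?_ ?_ ?_ (by omega) ?_ (fun _ => Or.inl rfl) (by simp) (fun _ => Or.inl rfl) ?_ ?_
  · intro u v huv
    by_cases hv : v = w
    · subst hv
      have h1 : u ≠ z := fun h2 => h.nadj (h2 ▸ huv)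
      have h2 : u ≠ v := G.ne_of_adj huv
      have h3 : ¬ NN G z v u := fun h3 => h3.2.2.2 huv
      simp [h1, h2, h3, h.ne.symm]
    · by_cases hv' : v = z
      · subst hv'
        have h1 : u ≠ w := fun h2 => h.nadj (h2 ▸ huv.symm)
        have h2 : u ≠ v := G.ne_of_adj huv
        have h3 : ¬ NN G v w u := fun h3 => h3.2.2.1 huv
        simp [h1, h2, h3]
      · simp only [hv, hv', if_false]
        split_ifs <;> omega
  · intro u hu
    have h1 := hu.1
    have h2 := hu.2.1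
    simp [h1, h2, hu]
  · simp
  · intro v _
    by_cases h1 : v = z
    · left
      refine ⟨x0, h1 ▸ hx1.symm, ?_⟩
      subst h1
      simp [e3, e4, e5]
    · by_cases h2 : v = w
      · left
        refine ⟨x0, h2 ▸ hx2, ?_⟩
        subst h2
        simp [e3, e4, e5, h1]
      · by_cases h3 : NN G z w v
        · right; left; exact ⟨h3, by simp [h1, h2, h3]⟩
        · left
          obtain ⟨u, hu, huv⟩ := hz v h1 h2 h3
          refine ⟨u, huv, ?_⟩
          simp [h1, h2, h3, hu.1, hu.2.1, hu]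
  · refine ⟨fun v => ?_, by omega⟩
    split_ifs <;> omega
  · left
    exact ⟨w, by simp⟩

open Classical in
/-- Eccentricity of the new vertex `2`. -/
lemma ecc_c (h : Good G z w) : (ext G (NN G z w) z).eccent (Sum.inr 2) = 3 := by
  refine ecc_ext G (NN G z w) z (Sum.inr 2)
    (fun v => if v = z then 1 else if G.Adj v z then 2 else 3)
    1 2 0 3 rfl ?_ ?_ ?_ (by omega) ?_ (fun _ => Or.inr rfl) (fun _ => Or.inl rfl) (by simp) ?_ ?_
  · intro u v huv
    by_cases hu : u = z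
    · subst hu
      simp only [(G.ne_of_adj huv).symm, if_false, huv.symm, if_true]
      omega
    · simp only [hu, if_false]
      split_ifs <;> omega
  · intro u hu
    simp [hu.1, hu.2.2.1]
  · simp
  · intro v _
    by_cases h1 : v = z
    · right; right; exact ⟨h1, by simp [h1]⟩
    · left
      by_cases h2 : G.Adj v z
      · exact ⟨z, h2.symm, by simp [h1, h2]⟩
      · obtain ⟨x, hx1, hx2⟩ := h.com v z h1 h2
        refine ⟨x, hx1.symm, ?_⟩
        simp [h1, h2, G.ne_of_adj hx2, hx2]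
  · refine ⟨fun v => ?_, by omega⟩
    split_ifs <;> omega
  · left
    have h5 : ¬ G.Adj w z := fun h2 => h.nadj h2.symm
    exact ⟨w, by simp [h.ne.symm, h5]⟩

lemma ecc_z (h : Good G z w) : (ext G (NN G z w) z).eccent (Sum.inl z) = 3 := by
  refine ecc_ext G (NN G z w) z (Sum.inl z) (dd G z) 2 3 1 3 (dd_self G z) (dd_lip G z) ?_ ?_
    (by omega) ?_ (fun _ => Or.inr rfl) (fun _ => Or.inl rfl) (fun _ => Or.inr ?_) ?_ ?_
  · intro u hu
    rw [dd_nadj G (fun h2 => hu.2.2.1 h2.symm) hu.1]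
    omega
  · rw [dd_self]; omega
  · intro v hv
    left
    exact dd_desc G h.com z v (fun h2 => hv (by rw [h2]))
  · rw [dd_self]
  · exact ⟨fun v => (dd_le G z v).trans (by omega), by omega⟩
  · right; right; left; rfl

lemma ecc_w (h : Good G z w) : (ext G (NN G z w) z).eccent (Sum.inl w) = 4 := by
  refine ecc_ext G (NN G z w) z (Sum.inl w) (dd G w) 4 3 3 4 (dd_self G w) (dd_lip G w) ?_ ?_
    (by omega) ?_ (fun _ => Or.inr rfl) (fun _ => Or.inr ?_) (fun _ => Or.inr ?_) ?_ ?_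
  · intro u hu
    rw [dd_nadj G (fun h2 => hu.2.2.2 h2.symm) hu.2.1]
    omega
  · rw [dd_nadj G (fun h2 => h.nadj h2.symm) h.ne]; omega
  · intro v hv
    left
    exact dd_desc G h.com w v (fun h2 => hv (by rw [h2]))
  · obtain ⟨x, hx⟩ := h.nonempty
    exact ⟨x, hx, by rw [dd_nadj G (fun h2 => hx.2.2.2 h2.symm) hx.2.1]⟩
  · rw [dd_nadj G (fun h2 => h.nadj h2.symm) h.ne]
  · exact ⟨fun v => (dd_le G w v).trans (by omega), by omega⟩
  · right; left; rfl

lemma ecc_n (h : Good G z w) (u : V) (hu : NN G z w u) :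
    (ext G (NN G z w) z).eccent (Sum.inl u) = 3 := by
  have hz2 : dd G u z = 2 := dd_nadj G hu.2.2.1 hu.1.symm
  refine ecc_ext G (NN G z w) z (Sum.inl u) (dd G u) 2 1 3 3 (dd_self G u) (dd_lip G u) ?_ ?_
    (by omega) ?_ (fun _ => Or.inl rfl) (fun _ => Or.inr ⟨u, hu, by rw [dd_self]⟩)
    (fun _ => Or.inl rfl) ?_ ?_
  · intro v _
    have := dd_le G u v
    omega
  · rw [hz2]; omega
  · intro v hv
    left
    exact dd_desc G h.com u v (fun h2 => hv (by rw [h2]))
  · exact ⟨fun v => (dd_le G u v).trans (by omega), by omega⟩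
  · right; right; right; rfl

lemma ecc_o (h : Good G z w) (u : V) (hz : u ≠ z) (hw : u ≠ w) (hu : ¬ NN G z w u) :
    (ext G (NN G z w) z).eccent (Sum.inl u) = 3 := by
  obtain ⟨x, a, b, c, d, hxu⟩ := h.dom u hz hw
  have h1 : dd G u z = 1 ∨ dd G u z = 2 := by
    have := dd_pos G (u := u) (v := z) hz.symm
    have := dd_le G u z
    omega
  refine ecc_ext G (NN G z w) z (Sum.inl u) (dd G u) 3 2 (dd G u z + 1) 3 (dd_self G u)
    (dd_lip G u) ?_ ?_ (by omega) ?_ (fun _ => Or.inl rfl)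
    (fun _ => Or.inr ⟨x, ⟨a, b, c, d⟩, by rw [dd_adj G hxu.symm]⟩) (fun _ => Or.inr rfl) ?_ ?_
  · intro v hv
    have := dd_le G u v
    have : 1 ≤ dd G u v := dd_pos G (fun h2 => hu (h2 ▸ hv))
    omega
  · omega
  · intro v hv
    left
    exact dd_desc G h.com u v (fun h2 => hv (by rw [h2]))
  · exact ⟨fun v => (dd_le G u v).trans (by omega), by omega⟩
  · right; left; rfl

theorem isASC_ext [Finite V] (h : Good G z w) : IsASC (ext G (NN G z w) z) 3 := by
  classical
  have hecc : ∀ x, (ext G (NN G z w) z).eccent x = 3 ∨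
      ((x = Sum.inl w ∨ x = Sum.inr 0) ∧ (ext G (NN G z w) z).eccent x = 4) := by
    rintro (u | i)
    · by_cases h1 : u = w
      · right; rw [h1]; exact ⟨Or.inl rfl, ecc_w h⟩
      · left
        by_cases h2 : u = z
        · rw [h2]; exact ecc_z h
        · by_cases h3 : NN G z w u
          · exact ecc_n h u h3
          · exact ecc_o h u h2 h1 h3
    · fin_cases i
      · right; exact ⟨Or.inr rfl, ecc_a h⟩
      · left; exact ecc_b h
      · left; exact ecc_c h
  have hrad : (ext G (NN G z w) z).radius = 3 := by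
    apply le_antisymm
    · exact (SimpleGraph.radius_le_eccent).trans (ecc_b h).le
    · refine le_iInf fun x => ?_
      rcases hecc x with h1 | ⟨_, h1⟩
      · rw [h1]
      · rw [h1]; norm_num
  have : Nonempty (V ⊕ Fin 3) := ⟨Sum.inr 0⟩
  refine ⟨?_, by rw [hrad]; rfl, ?_⟩
  · rw [← SimpleGraph.radius_ne_top_iff, hrad]
    exact ENat.natCast_ne_top 3
  · have : ((ext G (NN G z w) z).center)ᶜ = {Sum.inl w, Sum.inr 0} := by
      ext x
      rw [Set.mem_compl_iff, SimpleGraph.mem_center_iff, hrad, Set.mem_insert_iff,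
        Set.mem_singleton_iff]
      constructor
      · intro hx
        rcases hecc x with h1 | ⟨h2, h1⟩
        · exact absurd h1 hx
        · exact h2
      · rintro (rfl | rfl)
        · rw [ecc_w h]; norm_num
        · rw [ecc_a h]; norm_num
    rw [this, Set.ncard_pair (by simp)]

/-! ### The lower bound -/

lemma edist_le_two {W : Type} (H : SimpleGraph W) {x y v : W} (h1 : H.Adj x y)
    (h2 : H.Adj y v) : H.edist x v ≤ 2 := by
  have := H.edist_le (SimpleGraph.Walk.cons h1 (SimpleGraph.Walk.cons h2 SimpleGraph.Walk.nil))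
  simpa using this

lemma edist_le_one {W : Type} (H : SimpleGraph W) {x y : W} (h1 : H.Adj x y) :
    H.edist x y ≤ 1 := by
  have := H.edist_le (SimpleGraph.Walk.cons h1 SimpleGraph.Walk.nil)
  simpa using this

/-- In a graph of radius three every vertex has another one at distance at least three. -/
lemma exists_far {W : Type} [Finite W] (H : SimpleGraph W) (h : IsASC H 3) (x : W) :
    ∃ y, ¬ H.edist x y ≤ 2 := by
  by_contra hcon
  push Not at hcon
  have h1 : H.eccent x ≤ 2 := by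
    rw [SimpleGraph.eccent_le_iff]
    exact hcon
  have h2 := SimpleGraph.radius_le_eccent (G := H) (u := x)
  rw [h.radius] at h2
  have h3 := h2.trans h1
  norm_num at h3

theorem le_of_isASC [Fintype V] [Nonempty V] (G : SimpleGraph V)
    (com : ∀ u v, u ≠ v → ¬ G.Adj u v → ∃ x, G.Adj u x ∧ G.Adj x v) {W : Type} [Fintype W]
    (H : SimpleGraph W) (k : ℕ) (hk : Fintype.card W = Fintype.card V + k) (hH : IsASC H 3)
    (f : G ↪g H) : 3 ≤ k := by
  classical
  -- distances inside the image of `f`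
  have hin : ∀ u v, H.edist (f u) (f v) ≤ 2 := by
    intro u v
    by_cases h1 : u = v
    · subst h1; simp
    · by_cases h2 : G.Adj u v
      · exact (edist_le_one H (f.map_adj_iff.2 h2)).trans (by norm_num)
      · obtain ⟨x, hx1, hx2⟩ := com u v h1 h2
        exact edist_le_two H (f.map_adj_iff.2 hx1) (f.map_adj_iff.2 hx2)
  set A : Finset W := Finset.univ.image f with hA
  have hcardA : A.card = Fintype.card V := by
    rw [hA, Finset.card_image_of_injective _ f.injective, Finset.card_univ]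
  have hcardc : Aᶜ.card = k := by
    rw [Finset.card_compl, hcardA, hk]
    omega
  have hout : ∀ x, x ∈ Aᶜ ↔ ∀ u, f u ≠ x := by
    intro x
    simp [hA]
  have hfar : ∀ u, ∃ y ∈ Aᶜ, ¬ H.edist (f u) y ≤ 2 := by
    intro u
    obtain ⟨y, hy⟩ := exists_far H hH (f u)
    refine ⟨y, ?_, hy⟩
    rw [hout]
    rintro v rfl
    exact hy (hin u v)
  -- an element outside with a neighbour inside
  obtain ⟨u0⟩ := ‹Nonempty V›
  by_contra hlt
  push Not at hlt
  obtain ⟨y0, hy0, _⟩ := hfar u0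
  have hcross : ∃ u, ∃ y ∈ Aᶜ, H.Adj (f u) y := by
    by_contra hcon
    push Not at hcon
    have h1 : ∀ a b, H.Reachable a b → a ∈ A → b ∈ A := by
      rintro a b ⟨p⟩
      induction p with
      | nil => exact id
      | @cons a c b h _ ih =>
        intro ha
        apply ih
        rw [hA, Finset.mem_image] at ha
        obtain ⟨u, _, rfl⟩ := ha
        by_contra hc
        exact hcon u c (Finset.mem_compl.2 hc) h
    have h2 := h1 (f u0) y0 (hH.connected.preconnected _ _) (by simp [hA])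
    exact (Finset.mem_compl.1 hy0) h2
  obtain ⟨u, a, ha, hua⟩ := hcross
  -- a second outer vertex
  obtain ⟨b, hb, hub⟩ := hfar u
  have hab : b ≠ a := by
    rintro rfl
    exact hub ((edist_le_one H hua).trans (by norm_num))
  have hAc : ∀ x ∈ Aᶜ, x = a ∨ x = b := by
    intro x hx
    by_contra hcon
    push Not at hcon
    have : ({a, b, x} : Finset W) ⊆ Aᶜ := by
      intro y hy
      simp only [Finset.mem_insert, Finset.mem_singleton] at hy
      rcases hy with rfl | rfl | rfl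
      · exact ha
      · exact hb
      · exact hx
    have h2 := Finset.card_le_card this
    rw [Finset.card_eq_three.2 ⟨a, b, x, hab.symm, hcon.1.symm, hcon.2.symm, rfl⟩] at h2
    omega
  -- `b` has a neighbour
  have hbn : ∃ y, H.Adj y b := by
    have hr : H.Reachable b a := hH.connected.preconnected _ _
    obtain ⟨p⟩ := hr
    cases p with
    | nil => exact absurd rfl hab
    | cons h _ => exact ⟨_, h.symm⟩
  obtain ⟨y, hyb⟩ := hbn
  by_cases hy : y ∈ A
  · rw [hA, Finset.mem_image] at hy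
    obtain ⟨v, _, rfl⟩ := hy
    -- a vertex close to both `a` and `b`
    obtain ⟨x, hxa, hxb⟩ : ∃ x : V, H.edist (f x) a ≤ 2 ∧ H.edist (f x) b ≤ 2 := by
      by_cases h1 : u = v
      · subst h1
        exact ⟨u, (edist_le_one H hua).trans (by norm_num), (edist_le_one H hyb).trans (by norm_num)⟩
      · by_cases h2 : G.Adj u v
        · exact ⟨u, (edist_le_one H hua).trans (by norm_num),
            edist_le_two H (f.map_adj_iff.2 h2) hyb⟩
        · obtain ⟨x, hx1, hx2⟩ := com u v h1 h2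
          exact ⟨x, edist_le_two H (f.map_adj_iff.2 hx1.symm) hua,
            edist_le_two H (f.map_adj_iff.2 hx2) hyb⟩
    obtain ⟨c, hc, hxc⟩ := hfar x
    rcases hAc c hc with rfl | rfl
    · exact hxc hxa
    · exact hxc hxb
  · rcases hAc y (Finset.mem_compl.2 hy) with rfl | rfl
    · exact hub (edist_le_two H hua hyb)
    · exact H.irrefl hyb

/-- The extension contains `G` as an induced subgraph. -/
def embExt (G : SimpleGraph V) (N : V → Prop) (z : V) : G ↪g ext G N z where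
  toFun := Sum.inl
  inj' := Sum.inl_injective
  map_rel_iff' := Iff.rfl

theorem ascIndex_eq_three [Fintype V] (h : Good G z w) : ascIndex 3 G = 3 := by
  have h1 : 3 ∈ {k | ∃ (W : Type) (_ : Fintype W) (H : SimpleGraph W),
      Fintype.card W = Fintype.card V + k ∧ IsASC H 3 ∧ Nonempty (G ↪g H)} := by
    refine ⟨V ⊕ Fin 3, inferInstance, ext G (NN G z w) z, by simp, isASC_ext h,
      ⟨embExt G _ z⟩⟩
  have : Nonempty V := ⟨z⟩
  apply le_antisymm (Nat.sInf_le h1)
  obtain ⟨W, _, H, hk, hH, ⟨f⟩⟩ := Nat.sInf_mem ⟨3, h1⟩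
  exact le_of_isASC G h.com H _ hk hH f

end Q122.Asc
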