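import Pool.Agent.Q122.Cups

set_option autoImplicit false

namespace Q122.Cups

/-- A table that satisfies the local conditions of a distance function is the distance. -/
lemma dist_eq {V : Type*} (G : SimpleGraph V) (d : V → V → ℕ) (h0 : ∀ u, d u u = 0)
    (h1 : ∀ u v w, G.Adj w v → d u v ≤ d u w + 1)
    (h2 : ∀ u v, u ≠ v → ∃ w, G.Adj w v ∧ d u v = d u w + 1) (u v : V) :
    G.dist u v = d u v ∧ G.Reachable u v := by
  have hwalk : ∀ (n : ℕ) (v : V), d u v = n → ∃ p : G.Walk u v, p.length = n := by
    intro n
    induction n with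
    | zero =>
      intro v hv
      by_cases huv : u = v
      · subst huv
        exact ⟨SimpleGraph.Walk.nil, rfl⟩
      · obtain ⟨w, _, hw⟩ := h2 u v huv
        omega
    | succ n ih =>
      intro v hv
      by_cases huv : u = v
      · subst huv
        rw [h0] at hv
        omega
      · obtain ⟨w, hwv, hw⟩ := h2 u v huv
        obtain ⟨p, hp⟩ := ih w (by omega)
        exact ⟨p.concat hwv, by rw [SimpleGraph.Walk.length_concat, hp]⟩
  have hle : ∀ (a b : V) (p : G.Walk a b) , d u b ≤ d u a + p.length := by
    intro a b p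
    induction p with
    | nil => simp
    | cons h p ih =>
      rw [SimpleGraph.Walk.length_cons]
      have := h1 u _ _ h
      omega
  obtain ⟨p, hp⟩ := hwalk _ v rfl
  refine ⟨le_antisymm (hp ▸ SimpleGraph.dist_le p) ?_, ⟨p⟩⟩
  obtain ⟨q, hq⟩ := SimpleGraph.Reachable.exists_walk_length_eq_dist ⟨p⟩
  have := hle _ _ q
  rw [h0] at this
  omega

/-- A triangle `5, 6, 7` with leaves `0, 1, 2` at `7` and leaves `3, 4` at `6`. -/
def G : SimpleGraph (Fin 8) where
  Adj u v := D u v = 1
  symm := ⟨by decide⟩
  loopless := ⟨by decide⟩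

instance : DecidableRel G.Adj := fun u v => inferInstanceAs (Decidable (D u v = 1))

lemma dist_G (u v : Fin 8) : G.dist u v = D u v ∧ G.Reachable u v :=
  dist_eq G (fun u v => D u v) (by decide) (by decide) (by decide) u v

/-- The code of a configuration. -/
def code (C : Fin 8 → ℕ) : ℕ := ∑ i, C i * 16 ^ (i : ℕ)

lemma code_digit (C : Fin 8 → ℕ) (h : ∀ i, C i < 16) (i : Fin 8) :
    code C / 16 ^ (i : ℕ) % 16 = C i := by
  have h0 := h 0
  have h1 := h 1
  have h2 := h 2
  have h3 := h 3
  have h4 := h 4
  have h5 := h 5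
  have h6 := h 6
  have h7 := h 7
  unfold code
  simp only [Fin.sum_univ_eight]
  fin_cases i <;> simp <;> omega

lemma sum_update (C f : Fin 8 → ℕ) (v : Fin 8) (x : ℕ) :
    (∑ i, Function.update C v x i * f i) + C v * f v = (∑ i, C i * f i) + x * f v := by
  rw [← Finset.add_sum_erase _ _ (Finset.mem_univ v),
    ← Finset.add_sum_erase Finset.univ (fun i => C i * f i) (Finset.mem_univ v)]
  have : ∑ i ∈ Finset.univ.erase v, Function.update C v x i * f i =
      ∑ i ∈ Finset.univ.erase v, C i * f i :=
    Finset.sum_congr rfl fun i hi => by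
      rw [Function.update_of_ne (Finset.ne_of_mem_erase hi)]
  rw [this, Function.update_self]
  ring

/-- The invariant of all reachable configurations. -/
def Inv (C : Fin 8 → ℕ) : Prop := ∑ i, C i = 8 ∧ R.mem (code C) = true

lemma inv_le {C : Fin 8 → ℕ} (h : Inv C) (i : Fin 8) : C i < 16 := by
  have : C i ≤ ∑ i, C i := Finset.single_le_sum (fun _ _ => Nat.zero_le _) (Finset.mem_univ i)
  rw [h.1] at this
  omega

lemma inv_move {C C' : Fin 8 → ℕ} (h : Inv C) (hm : Move G C C') : Inv C' := by
  obtain ⟨u, v, hu, hv, hd, rfl⟩ := hm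
  have huv : u ≠ v := by
    rintro rfl
    rw [SimpleGraph.dist_self] at hd
    omega
  have hsum : ∀ f : Fin 8 → ℕ,
      (∑ i, Function.update (Function.update C v (C u + C v)) u 0 i * f i) + C u * f u =
        (∑ i, C i * f i) + C u * f v := by
    intro f
    have e1 := sum_update (Function.update C v (C u + C v)) f u 0
    have e2 := sum_update C f v (C u + C v)
    rw [Function.update_of_ne huv] at e1
    rw [add_mul] at e2
    omega
  refine ⟨?_, ?_⟩
  · have := hsum (fun _ => 1)
    simp only [mul_one] at this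
    have h1 := h.1
    omega
  · have hc := T.of_all closed R (code C) closed_all h.2
    unfold closed at hc
    rw [List.all_eq_true] at hc
    have hc1 := hc u (List.mem_range.2 u.2)
    rw [code_digit C (inv_le h) u] at hc1
    have hu0 : (C u == 0) = false := by
      rw [beq_eq_false_iff_ne]
      omega
    rw [hu0, Bool.false_or, List.all_eq_true] at hc1
    have hc2 := hc1 v (List.mem_range.2 v.2)
    rw [code_digit C (inv_le h) v] at hc2
    have hv0 : (C v == 0) = false := by
      rw [beq_eq_false_iff_ne]
      omega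
    have hd0 : (D u v == C u) = true := by
      rw [beq_iff_eq, ← (dist_G u v).1, hd]
    rw [hv0, hd0, Bool.not_true, Bool.false_or, Bool.false_or] at hc2
    have h3 := hsum (fun i => 16 ^ (i : ℕ))
    have h4 : C u * 16 ^ (u : ℕ) ≤ code C :=
      Finset.single_le_sum (f := fun i : Fin 8 => C i * 16 ^ (i : ℕ))
        (fun _ _ => Nat.zero_le _) (Finset.mem_univ u)
    have h5 : code (Function.update (Function.update C v (C u + C v)) u 0) =
        code C - C u * 16 ^ (u : ℕ) + C u * 16 ^ (v : ℕ) := by
      unfold code at h4 ⊢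
      omega
    rw [h5]
    exact hc2

lemma inv_start : Inv (fun _ => 1) := by
  refine ⟨by simp, by decide +kernel⟩

lemma not_inv_end (r : Fin 8) : ¬ Inv (fun v => if v = r then 8 else 0) := by
  rintro ⟨-, h⟩
  revert h
  revert r
  decide +kernel

theorem not_stackable (r : Fin 8) : ¬ RStackable G r := by
  intro h
  apply not_inv_end r
  have h2 : ∀ C, Relation.ReflTransGen (Move G) (fun _ => 1) C → Inv C := by
    intro C hC
    induction hC with
    | refl => exact inv_start
    | tail _ hm ih => exact inv_move ih hm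
  exact h2 _ h

theorem exists_not_stackable : ∃ (n : ℕ) (G : SimpleGraph (Fin n)), G.Connected ∧ ¬ G.IsTree ∧
    ∀ r, ¬ RStackable G r := by
  refine ⟨8, G, ⟨fun u v => (dist_G u v).2⟩, ?_, not_stackable⟩
  intro hT
  have := hT.card_edgeFinset
  revert this
  decide +kernel

end Q122.Cups
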