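import Pool.Agent.Q122.IndexDefs

set_option autoImplicit false

/-!
# Exclusive sum number
-/

namespace Q122

/-- `g` is an exclusive sum labelling of `G` together with `r` new isolated vertices: `g` is
injective with positive values, distinct vertices `x`, `y` of `G ∪ \bar K_r` are adjacent if and
only if `g x + g y` is a label, and the sum of the labels of the ends of any edge of `G` is the
label of one of the `r` added isolated vertices. -/
structure IsExclusive {V : Type} (G : SimpleGraph V) (r : ℕ) (g : V ⊕ Fin r → ℤ) : Prop where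
  inj : Function.Injective g
  pos : ∀ x, 0 < g x
  adj_iff : ∀ x y, x ≠ y → ((G ⊕g (⊥ : SimpleGraph (Fin r))).Adj x y ↔ ∃ w, g x + g y = g w)
  excl : ∀ u v, G.Adj u v → ∃ i : Fin r, g (Sum.inl u) + g (Sum.inl v) = g (Sum.inr i)

/-- `r` is the exclusive sum number of `G`. -/
def IsExclusiveSumNumber {V : Type} (G : SimpleGraph V) (r : ℕ) : Prop :=
  IsLeast {r | ∃ g : V ⊕ Fin r → ℤ, IsExclusive G r g} r

end Q122
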