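import Pool.Agent.Q122.ExclusiveDefs

set_option autoImplicit false

/-!
# The exclusive sum number is bounded in terms of the sum index
-/

namespace Q122

/-- Base four representations with digits below four are unique. -/
lemma base4_unique {n : ℕ} (a b : Fin n → ℕ) (ha : ∀ i, a i < 4) (hb : ∀ i, b i < 4)
    (h : ∑ i, a i * 4 ^ (i : ℕ) = ∑ i, b i * 4 ^ (i : ℕ)) : a = b := by
  have h1 : finFunctionFinEquiv (m := 4) (n := n) (fun i => ⟨a i, ha i⟩) =
      finFunctionFinEquiv (m := 4) (n := n) (fun i => ⟨b i, hb i⟩) := by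
    apply Fin.ext
    rw [finFunctionFinEquiv_apply, finFunctionFinEquiv_apply]
    exact h
  have h2 := finFunctionFinEquiv.injective h1
  funext i
  have := congrFun h2 i
  simpa using this

lemma base4_lt {n : ℕ} (a : Fin n → ℕ) (ha : ∀ i, a i < 4) :
    ∑ i, a i * 4 ^ (i : ℕ) < 4 ^ n := by
  have := (finFunctionFinEquiv (m := 4) (n := n) (fun i => ⟨a i, ha i⟩)).2
  rw [finFunctionFinEquiv_apply] at this
  exact this

variable {V : Type} [Fintype V]

open Classical in
/-- The digits of the code of a vertex: `s` is an edge sum at an edge containing `u`. -/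
noncomputable def bit (G : SimpleGraph V) (f : V → ℤ) {k : ℕ} (e : Fin k → ℤ) (u : V)
    (i : Fin k) : ℕ :=
  if ∃ v, G.Adj u v ∧ f u + f v = e i then 1 else 0

/-- The code of a vertex. -/
noncomputable def enc (G : SimpleGraph V) (f : V → ℤ) {k : ℕ} (e : Fin k → ℤ) (u : V) : ℕ :=
  ∑ i, bit G f e u i * 4 ^ (i : ℕ)

lemma bit_le (G : SimpleGraph V) (f : V → ℤ) {k : ℕ} (e : Fin k → ℤ) (u : V) (i : Fin k) :
    bit G f e u i ≤ 1 := by
  unfold bit
  split_ifs <;> omega

/-- The sum of the codes distinguishes edges from non-edges with the same sum of labels. -/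
lemma adj_of_enc (G : SimpleGraph V) (f : V → ℤ) (hf : Function.Injective f) {k : ℕ}
    (e : Fin k → ℤ) (he : ∀ u v, G.Adj u v → ∃ i, e i = f u + f v) (u v u' v' : V)
    (h' : G.Adj u' v') (hs : f u + f v = f u' + f v')
    (henc : enc G f e u + enc G f e v = enc G f e u' + enc G f e v') : G.Adj u v := by
  obtain ⟨i, hi⟩ := he u' v' h'
  have h1 : ∑ i, (bit G f e u i + bit G f e v i) * 4 ^ (i : ℕ) =
      ∑ i, (bit G f e u' i + bit G f e v' i) * 4 ^ (i : ℕ) := by
    simp only [add_mul, Finset.sum_add_distrib]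
    exact henc
  have h2 := base4_unique _ _ (fun i => by
    have := bit_le G f e u i
    have := bit_le G f e v i
    omega) (fun i => by
    have := bit_le G f e u' i
    have := bit_le G f e v' i
    omega) h1
  have h3 : bit G f e u i + bit G f e v i = bit G f e u' i + bit G f e v' i := congrFun h2 i
  have h4 : bit G f e u' i = 1 := by
    unfold bit
    rw [if_pos ⟨v', h', hi.symm⟩]
  have h5 : bit G f e v' i = 1 := by
    unfold bit
    rw [if_pos ⟨u', h'.symm, by rw [hi, add_comm]⟩]
  have h6 : bit G f e u i = 1 := by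
    have := bit_le G f e u i
    have := bit_le G f e v i
    omega
  unfold bit at h6
  split_ifs at h6 with h7
  obtain ⟨w, hw, hfw⟩ := h7
  have : f w = f v := by omega
  rw [hf this] at hw
  exact hw

lemma enc_lt (G : SimpleGraph V) (f : V → ℤ) {k : ℕ} (e : Fin k → ℤ) (u v : V) :
    enc G f e u + enc G f e v < 4 ^ k := by
  have h1 : enc G f e u + enc G f e v =
      ∑ i, (bit G f e u i + bit G f e v i) * 4 ^ (i : ℕ) := by
    simp only [add_mul, Finset.sum_add_distrib]
    rfl
  rw [h1]
  apply base4_lt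
  intro i
  have := bit_le G f e u i
  have := bit_le G f e v i
  omega

lemma digits_unique {B x y x' y' : ℤ} (hy : 0 ≤ y) (hy' : 0 ≤ y') (hyB : y < B) (hyB' : y' < B)
    (h : B * x + y = B * x' + y') : x = x' ∧ y = y' := by
  have h1 : x = x' := by
    by_contra hne
    rcases lt_or_gt_of_ne hne with h2 | h2
    · have : B * (x' - x) ≥ B * 1 := mul_le_mul_of_nonneg_left (by omega) (by omega)
      nlinarith
    · have : B * (x - x') ≥ B * 1 := mul_le_mul_of_nonneg_left (by omega) (by omega)
      nlinarith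
  subst h1
  exact ⟨rfl, by omega⟩

/-- The labels. -/
noncomputable def lab (G : SimpleGraph V) (f : V → ℤ) {k : ℕ} (e : Fin k → ℤ) (K : ℤ) (v : V) :
    ℤ :=
  3 * (4 ^ k * f v + enc G f e v + K) + 1

lemma lab_sum (G : SimpleGraph V) (f : V → ℤ) {k : ℕ} (e : Fin k → ℤ) (K : ℤ) (u v u' v' : V)
    (h : lab G f e K u + lab G f e K v = lab G f e K u' + lab G f e K v') :
    f u + f v = f u' + f v' ∧ enc G f e u + enc G f e v = enc G f e u' + enc G f e v' := by
  unfold lab at h
  have h1 := enc_lt G f e u v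
  have h2 := enc_lt G f e u' v'
  have h1' : ((enc G f e u + enc G f e v : ℕ) : ℤ) < 4 ^ k := by exact_mod_cast h1
  have h2' : ((enc G f e u' + enc G f e v' : ℕ) : ℤ) < 4 ^ k := by exact_mod_cast h2
  push_cast at h1' h2'
  have h3 : (4 ^ k : ℤ) * (f u + f v) + ((enc G f e u : ℤ) + enc G f e v) =
      4 ^ k * (f u' + f v') + ((enc G f e u' : ℤ) + enc G f e v') := by linarith
  obtain ⟨h4, h5⟩ := digits_unique (by positivity) (by positivity) h1' h2' h3
  exact ⟨h4, by exact_mod_cast h5⟩

lemma lab_injective (G : SimpleGraph V) (f : V → ℤ) (hf : Function.Injective f) {k : ℕ}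
    (e : Fin k → ℤ) (K : ℤ) : Function.Injective (lab G f e K) := by
  intro u v h
  have h1 := (lab_sum G f e K u u v v (by rw [h])).1
  exact hf (by omega)

theorem exists_exclusive (G : SimpleGraph V) (f : V → ℤ) (hf : Function.Injective f) :
    ∃ r, r ≤ (edgeSums G f).ncard * 4 ^ (edgeSums G f).ncard ∧
      ∃ g : V ⊕ Fin r → ℤ, IsExclusive G r g := by
  classical
  have hfin : (edgeSums G f).Finite := by
    have : edgeSums G f ⊆ Set.range (fun p : V × V => f p.1 + f p.2) := by
      rintro s ⟨u, v, _, rfl⟩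
      exact ⟨(u, v), rfl⟩
    exact (Set.finite_range _).subset this
  set S : Finset ℤ := hfin.toFinset with hS
  have hcard : (edgeSums G f).ncard = S.card := Set.ncard_eq_toFinset_card _ hfin
  rw [hcard]
  set k := S.card with hk
  let e : Fin k → ℤ := fun i => (S.equivFin.symm i : ℤ)
  have he : ∀ u v, G.Adj u v → ∃ i, e i = f u + f v := by
    intro u v huv
    have : f u + f v ∈ S := by
      rw [hS, Set.Finite.mem_toFinset]
      exact ⟨u, v, huv, rfl⟩
    exact ⟨S.equivFin ⟨_, this⟩, by simp [e]⟩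
  -- the bound `L` on the unshifted labels
  let F : V → ℤ := fun v => 4 ^ k * f v + enc G f e v
  obtain ⟨L, hL0, hL⟩ : ∃ L : ℤ, 0 ≤ L ∧ ∀ v, |F v| ≤ L :=
    ⟨∑ v, |F v|, Finset.sum_nonneg fun _ _ => abs_nonneg _, fun v =>
      Finset.single_le_sum (f := fun v => |F v|) (fun _ _ => abs_nonneg _) (Finset.mem_univ v)⟩
  let K : ℤ := 3 * L + 1
  let lb : V → ℤ := lab G f e K
  have hlb : ∀ v, lb v = 3 * (F v + K) + 1 := fun v => rfl
  let M : ℤ := 3 * (K - L) + 1
  have hM0 : 0 < M := by simp only [M, K]; omega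
  have hlo : ∀ v, M ≤ lb v := by
    intro v
    have := abs_le.1 (hL v)
    rw [hlb]
    simp only [M]
    omega
  have hhi : ∀ v, lb v < 2 * M := by
    intro v
    have := abs_le.1 (hL v)
    rw [hlb]
    simp only [M, K]
    omega
  -- the sums
  let S' : Finset ℤ := (Finset.univ.filter fun p : V × V => G.Adj p.1 p.2).image
    fun p => lb p.1 + lb p.2
  have hS' : ∀ s, s ∈ S' ↔ ∃ u v, G.Adj u v ∧ lb u + lb v = s := by
    intro s
    simp only [S', Finset.mem_image, Finset.mem_filter, Finset.mem_univ, true_and, Prod.exists]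
  have hS'card : S'.card ≤ k * 4 ^ k := by
    have : S' ⊆ (S ×ˢ Finset.range (4 ^ k)).image
        (fun p => 3 * (4 ^ k * p.1 + (p.2 : ℤ) + 2 * K) + 2) := by
      intro s hs
      obtain ⟨u, v, huv, rfl⟩ := (hS' s).1 hs
      rw [Finset.mem_image]
      refine ⟨(f u + f v, enc G f e u + enc G f e v), ?_, ?_⟩
      · rw [Finset.mem_product]
        refine ⟨?_, Finset.mem_range.2 (enc_lt G f e u v)⟩
        rw [hS, Set.Finite.mem_toFinset]
        exact ⟨u, v, huv, rfl⟩
      · rw [hlb, hlb]
        simp only [F]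
        push_cast
        ring
    refine (Finset.card_le_card this).trans (Finset.card_image_le.trans ?_)
    rw [Finset.card_product, Finset.card_range]
  let g : V ⊕ Fin S'.card → ℤ := Sum.elim lb (fun i => (S'.equivFin.symm i : ℤ))
  have hgr : ∀ i : Fin S'.card, g (Sum.inr i) ∈ S' := fun i => (S'.equivFin.symm i).2
  have hgr2 : ∀ s ∈ S', ∃ i : Fin S'.card, g (Sum.inr i) = s := fun s hs =>
    ⟨S'.equivFin ⟨s, hs⟩, by simp [g]⟩
  have hmod1 : ∀ v, lb v % 3 = 1 := by
    intro v
    rw [hlb]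
    omega
  have hmod2 : ∀ s ∈ S', s % 3 = 2 := by
    intro s hs
    obtain ⟨u, v, _, rfl⟩ := (hS' s).1 hs
    have := hmod1 u
    have := hmod1 v
    omega
  have hlo2 : ∀ s ∈ S', 2 * M ≤ s := by
    intro s hs
    obtain ⟨u, v, _, rfl⟩ := (hS' s).1 hs
    have := hlo u
    have := hlo v
    omega
  have hhi2 : ∀ s ∈ S', s < 4 * M := by
    intro s hs
    obtain ⟨u, v, _, rfl⟩ := (hS' s).1 hs
    have := hhi u
    have := hhi v
    omega
  have hgl : ∀ v, g (Sum.inl v) = lb v := fun v => rfl
  refine ⟨S'.card, hS'card, g, ⟨?_, ?_, ?_, ?_⟩⟩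
  · rintro (u | i) (v | j) h
    · exact congrArg Sum.inl (lab_injective G f hf e K h)
    · have h1 := hmod1 u
      have h2 := hmod2 _ (hgr j)
      rw [← h, hgl] at h2
      omega
    · have h1 := hmod1 v
      have h2 := hmod2 _ (hgr i)
      rw [h, hgl] at h2
      omega
    · have h1 : (S'.equivFin.symm i : ℤ) = (S'.equivFin.symm j : ℤ) := h
      have h2 := S'.equivFin.symm.injective (Subtype.ext h1)
      rw [h2]
  · rintro (v | i)
    · rw [hgl]
      have := hlo v
      omega
    · have := hlo2 _ (hgr i)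
      omega
  · rintro (u | i) (v | j) hne
    · rw [SimpleGraph.sum_adj]
      constructor
      · intro h
        obtain ⟨i, hi⟩ := hgr2 (lb u + lb v) ((hS' _).2 ⟨u, v, h, rfl⟩)
        exact ⟨Sum.inr i, hi.symm⟩
      · rintro ⟨w | i, hw⟩
        · have h1 := hmod1 u
          have h2 := hmod1 v
          have h3 := hmod1 w
          rw [hgl, hgl, hgl] at hw
          omega
        · obtain ⟨u', v', h', hs⟩ := (hS' _).1 (hgr i)
          rw [hgl, hgl, ← hs] at hw
          obtain ⟨h1, h2⟩ := lab_sum G f e K u v u' v' hw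
          exact adj_of_enc G f hf e he u v u' v' h' h1 h2
    · rw [SimpleGraph.sum_adj]
      simp only [false_iff]
      rintro ⟨w | i, hw⟩
      · have h1 := hmod1 u
        have h2 := hmod2 _ (hgr j)
        have h3 := hmod1 w
        rw [hgl, hgl] at hw
        omega
      · have h1 := hmod1 u
        have h2 := hmod2 _ (hgr j)
        have h3 := hmod2 _ (hgr i)
        rw [hgl] at hw
        omega
    · rw [SimpleGraph.sum_adj]
      simp only [false_iff]
      rintro ⟨w | j, hw⟩
      · have h1 := hmod1 v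
        have h2 := hmod2 _ (hgr i)
        have h3 := hmod1 w
        rw [hgl, hgl] at hw
        omega
      · have h1 := hmod1 v
        have h2 := hmod2 _ (hgr j)
        have h3 := hmod2 _ (hgr i)
        rw [hgl] at hw
        omega
    · rw [SimpleGraph.sum_adj]
      simp only [SimpleGraph.bot_adj, false_iff]
      rintro ⟨w | w, hw⟩
      · have h1 := hlo2 _ (hgr i)
        have h2 := hlo2 _ (hgr j)
        have h3 := hhi w
        rw [hgl] at hw
        omega
      · have h1 := hlo2 _ (hgr i)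
        have h2 := hlo2 _ (hgr j)
        have h3 := hhi2 _ (hgr w)
        omega
  · intro u v h
    obtain ⟨i, hi⟩ := hgr2 (lb u + lb v) ((hS' _).2 ⟨u, v, h, rfl⟩)
    exact ⟨i, hi.symm⟩

theorem exclusive_le_of_sumIndex (G : SimpleGraph V) :
    ∃ r, IsExclusiveSumNumber G r ∧ r ≤ sumIndex G * 4 ^ sumIndex G := by
  have hne : {k | ∃ f : V → ℤ, Function.Injective f ∧ (edgeSums G f).ncard = k}.Nonempty := by
    refine ⟨_, fun v => ((Fintype.equivFin V v : ℕ) : ℤ), ?_, rfl⟩
    intro u v h
    have h2 : ((Fintype.equivFin V u : ℕ) : ℤ) = ((Fintype.equivFin V v : ℕ) : ℤ) := h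
    have : (Fintype.equivFin V u : ℕ) = Fintype.equivFin V v := by exact_mod_cast h2
    exact (Fintype.equivFin V).injective (Fin.ext this)
  obtain ⟨f, hf, hk⟩ := Nat.sInf_mem hne
  obtain ⟨r, hr, hg⟩ := exists_exclusive G f hf
  have hne2 : {r | ∃ g : V ⊕ Fin r → ℤ, IsExclusive G r g}.Nonempty := ⟨r, hg⟩
  refine ⟨sInf {r | ∃ g : V ⊕ Fin r → ℤ, IsExclusive G r g},
    ⟨Nat.sInf_mem hne2, fun _ h => Nat.sInf_le h⟩, ?_⟩
  refine (Nat.sInf_le (show r ∈ {r | ∃ g : V ⊕ Fin r → ℤ, IsExclusive G r g} from hg)).trans ?_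
  have : sumIndex G = (edgeSums G f).ncard := hk.symm
  rw [this]
  exact hr

end Q122
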