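import Mathlib

set_option autoImplicit false

/-!
# Sum index and difference index of a graph
-/

namespace Q122

/-- The set of sums `f u + f v` over the edges `uv` of `G`. -/
def edgeSums {V : Type} (G : SimpleGraph V) (f : V → ℤ) : Set ℤ :=
  {s | ∃ u v, G.Adj u v ∧ f u + f v = s}

/-- The set of differences `|f u - f v|` over the edges `uv` of `G`. -/
def edgeDiffs {V : Type} (G : SimpleGraph V) (f : V → ℤ) : Set ℤ :=
  {d | ∃ u v, G.Adj u v ∧ |f u - f v| = d}

/-- The sum index: the least number of distinct edge sums of an injective labelling of the
vertices by integers. -/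
noncomputable def sumIndex {V : Type} (G : SimpleGraph V) : ℕ :=
  sInf {k | ∃ f : V → ℤ, Function.Injective f ∧ (edgeSums G f).ncard = k}

/-- The difference index: the least number of distinct edge differences of an injective labelling
of the vertices by integers. -/
noncomputable def diffIndex {V : Type} (G : SimpleGraph V) : ℕ :=
  sInf {k | ∃ f : V → ℤ, Function.Injective f ∧ (edgeDiffs G f).ncard = k}

end Q122
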