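import Pool.Agent.Q122.IndexDefs

set_option autoImplicit false

/-!
# Simplex-lattice graphs have small sum index and large difference index
-/

namespace Q122

open Finset

lemma edgeDiffs_finite {V : Type} [Finite V] (G : SimpleGraph V) (f : V → ℤ) :
    (edgeDiffs G f).Finite := by
  refine (Set.finite_range fun p : V × V => |f p.1 - f p.2|).subset ?_
  rintro d ⟨u, v, -, rfl⟩
  exact ⟨(u, v), rfl⟩

lemma edgeSums_finite {V : Type} [Finite V] (G : SimpleGraph V) (f : V → ℤ) :
    (edgeSums G f).Finite := by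
  refine (Set.finite_range fun p : V × V => f p.1 + f p.2).subset ?_
  rintro d ⟨u, v, -, rfl⟩
  exact ⟨(u, v), rfl⟩

/-- Along a walk of length at most `L` the label changes by a combination of the edge
differences with coefficients of absolute value at most `L`. -/
lemma walk_combination {V : Type} [Finite V] (G : SimpleGraph V) (f : V → ℤ) (D : Finset ℤ)
    (hD : ∀ u v, G.Adj u v → |f u - f v| ∈ D) {u v : V} (w : G.Walk u v) :
    ∃ c : ℤ → ℤ, (∀ d, |c d| ≤ w.length) ∧ f v = f u + ∑ d ∈ D, c d * d := by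
  induction w with
  | nil => exact ⟨fun _ => 0, by simp, by simp⟩
  | @cons u x v h w ih =>
    obtain ⟨c, hc, hs⟩ := ih
    have hd := hD u x h
    -- f x = f u + ε * |f u - f x|
    obtain ⟨ε, hε, hx⟩ : ∃ ε : ℤ, |ε| ≤ 1 ∧ f x = f u + ε * |f u - f x| := by
      rcases le_total (f u - f x) 0 with h0 | h0
      · exact ⟨1, by norm_num, by rw [abs_of_nonpos h0]; ring⟩
      · exact ⟨-1, by norm_num, by rw [abs_of_nonneg h0]; ring⟩
    refine ⟨fun d => c d + if d = |f u - f x| then ε else 0, ?_, ?_⟩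
    · intro d
      have h1 := hc d
      simp only [SimpleGraph.Walk.length_cons]
      push_cast
      split_ifs with h2
      · exact (abs_add_le _ _).trans (by linarith)
      · rw [add_zero]; linarith
    · have h3 : ∑ d ∈ D, (c d + if d = |f u - f x| then ε else 0) * d =
          ∑ d ∈ D, c d * d + ε * |f u - f x| := by
        simp only [add_mul, Finset.sum_add_distrib, ite_mul, zero_mul, Finset.sum_ite_eq']
        rw [if_pos hd]
      rw [h3, hs]
      linarith

/-- If every vertex can be reached by a walk of length at most `L` and the injective labelling `f`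
has at most `t` distinct edge differences, then there are at most `(2 L + 1) ^ t` vertices. -/
lemma card_le_of_diffs {V : Type} [Fintype V] (G : SimpleGraph V) (f : V → ℤ)
    (hf : Function.Injective f) (L t : ℕ) (v0 : V)
    (hL : ∀ v, ∃ w : G.Walk v0 v, w.length ≤ L) (ht : (edgeDiffs G f).ncard ≤ t) :
    Fintype.card V ≤ (2 * L + 1) ^ t := by
  classical
  set D : Finset ℤ := (edgeDiffs_finite G f).toFinset with hDdef
  have hDcard : D.card ≤ t := by
    rw [hDdef, ← Set.ncard_eq_toFinset_card _ (edgeDiffs_finite G f)]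
    exact ht
  have hD : ∀ u v, G.Adj u v → |f u - f v| ∈ D := by
    intro u v h
    rw [hDdef, Set.Finite.mem_toFinset]
    exact ⟨u, v, h, rfl⟩
  have key : ∀ v, ∃ c : D → ℤ, (∀ d, c d ∈ Finset.Icc (-(L : ℤ)) L) ∧
      f v = f v0 + ∑ d : D, c d * (d : ℤ) := by
    intro v
    obtain ⟨w, hw⟩ := hL v
    obtain ⟨c, hc, hs⟩ := walk_combination G f D hD w
    refine ⟨fun d => c d, fun d => ?_, ?_⟩
    · have := hc d
      have hw' : (w.length : ℤ) ≤ L := by exact_mod_cast hw
      rw [Finset.mem_Icc, ← abs_le]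
      linarith
    · rw [hs, ← Finset.sum_coe_sort D (fun d => c d * d)]
  choose c hc hs using key
  have hinj : Function.Injective c := by
    intro u v huv
    apply hf
    rw [hs u, hs v, huv]
  have hmem : ∀ v, c v ∈ Fintype.piFinset fun _ : D => Finset.Icc (-(L : ℤ)) L := by
    intro v
    rw [Fintype.mem_piFinset]
    exact hc v
  calc Fintype.card V = (Finset.univ : Finset V).card := rfl
    _ ≤ (Fintype.piFinset fun _ : D => Finset.Icc (-(L : ℤ)) L).card :=
        Finset.card_le_card_of_injOn c (fun v _ => hmem v) (hinj.injOn)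
    _ = (2 * L + 1) ^ D.card := by
        rw [Fintype.card_piFinset]
        simp only [Int.card_Icc, Finset.prod_const, Finset.card_univ, Fintype.card_coe]
        congr 1
        omega
    _ ≤ (2 * L + 1) ^ t := Nat.pow_le_pow_right (by omega) hDcard

/-- The simplex-lattice graph: two copies of `[N]^r`, the point `p` of the first copy being joined
to the point `q` of the second if `p = q` or `p = q + e_i` for some `i`. -/
def simplexGraph (r N : ℕ) : SimpleGraph (Bool × (Fin r → Fin N)) :=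
  SimpleGraph.fromRel fun x y => x.1 = false ∧ y.1 = true ∧
    (x.2 = y.2 ∨ ∃ i, (x.2 i : ℕ) = y.2 i + 1 ∧ ∀ j, j ≠ i → x.2 j = y.2 j)

lemma simplexGraph_adj (r N : ℕ) (p q : Fin r → Fin N) :
    (simplexGraph r N).Adj (false, p) (true, q) ↔
      (p = q ∨ ∃ i, (p i : ℕ) = q i + 1 ∧ ∀ j, j ≠ i → p j = q j) := by
  simp [simplexGraph, SimpleGraph.fromRel_adj]

lemma simplexGraph_adj_cases (r N : ℕ) {x y : Bool × (Fin r → Fin N)}
    (h : (simplexGraph r N).Adj x y) :
    (∃ p q, x = (false, p) ∧ y = (true, q) ∧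
      (p = q ∨ ∃ i, (p i : ℕ) = q i + 1 ∧ ∀ j, j ≠ i → p j = q j)) ∨
    (∃ p q, y = (false, p) ∧ x = (true, q) ∧
      (p = q ∨ ∃ i, (p i : ℕ) = q i + 1 ∧ ∀ j, j ≠ i → p j = q j)) := by
  obtain ⟨a, p⟩ := x
  obtain ⟨b, q⟩ := y
  simp only [simplexGraph, SimpleGraph.fromRel_adj] at h
  rcases h.2 with h | h
  · obtain ⟨h1, h2, h3⟩ := h
    subst h1 h2
    exact Or.inl ⟨p, q, rfl, rfl, h3⟩
  · obtain ⟨h1, h2, h3⟩ := h
    subst h1 h2
    exact Or.inr ⟨q, p, rfl, rfl, h3⟩

lemma simplexGraph_colorable (r N : ℕ) : (simplexGraph r N).Colorable 2 := by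
  refine ⟨SimpleGraph.Coloring.mk (fun x => if x.1 then (0 : Fin 2) else 1) ?_⟩
  intro x y h
  rcases simplexGraph_adj_cases r N h with ⟨p, q, rfl, rfl, -⟩ | ⟨p, q, rfl, rfl, -⟩ <;> simp

/-- Value of a point in base `N`. -/
def code (r N : ℕ) (p : Fin r → Fin N) : ℕ := ∑ i, (p i : ℕ) * N ^ (i : ℕ)

lemma code_lt (r N : ℕ) (p : Fin r → Fin N) : code r N p < N ^ r := by
  have := (finFunctionFinEquiv p).isLt
  rwa [finFunctionFinEquiv_apply_val] at this

lemma code_inj (r N : ℕ) : Function.Injective (code r N) := by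
  intro p q h
  apply finFunctionFinEquiv.injective
  apply Fin.ext
  rw [finFunctionFinEquiv_apply_val, finFunctionFinEquiv_apply_val]
  exact h

lemma code_step (r N : ℕ) (p q : Fin r → Fin N) (i : Fin r) (h : (p i : ℕ) = q i + 1)
    (h' : ∀ j, j ≠ i → p j = q j) : code r N p = code r N q + N ^ (i : ℕ) := by
  unfold code
  have h1 := Finset.add_sum_erase Finset.univ (fun j => (p j : ℕ) * N ^ (j : ℕ)) (Finset.mem_univ i)
  have h2 := Finset.add_sum_erase Finset.univ (fun j => (q j : ℕ) * N ^ (j : ℕ)) (Finset.mem_univ i)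
  have h3 : ∑ j ∈ Finset.univ.erase i, (p j : ℕ) * N ^ (j : ℕ) =
      ∑ j ∈ Finset.univ.erase i, (q j : ℕ) * N ^ (j : ℕ) :=
    Finset.sum_congr rfl (fun j hj => by rw [h' j (Finset.ne_of_mem_erase hj)])
  rw [← h1, ← h2, h3, h]
  ring

/-- The labelling with few sums. -/
def sumLab (r N : ℕ) (x : Bool × (Fin r → Fin N)) : ℤ :=
  if x.1 then 3 * (N : ℤ) ^ r - code r N x.2 else code r N x.2

lemma sumLab_inj (r N : ℕ) : Function.Injective (sumLab r N) := by
  rintro ⟨a, p⟩ ⟨b, q⟩ h
  have h1 : (code r N p : ℤ) < (N : ℤ) ^ r := by exact_mod_cast code_lt r N p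
  have h2 : (code r N q : ℤ) < (N : ℤ) ^ r := by exact_mod_cast code_lt r N q
  have h3 : (0 : ℤ) ≤ code r N p := by positivity
  have h4 : (0 : ℤ) ≤ code r N q := by positivity
  rcases a with _ | _ <;> rcases b with _ | _ <;> simp only [sumLab, if_true, Bool.false_eq_true, if_false] at h
  · have : p = q := code_inj r N (by exact_mod_cast h)
    rw [this]
  · omega
  · omega
  · have : p = q := code_inj r N (by
      have : (code r N p : ℤ) = code r N q := by omega
      exact_mod_cast this)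
    rw [this]

lemma edgeSums_sumLab (r N : ℕ) : edgeSums (simplexGraph r N) (sumLab r N) ⊆
    ((Finset.univ : Finset (Option (Fin r))).image fun o =>
      3 * (N : ℤ) ^ r + o.elim 0 (fun i => (N : ℤ) ^ (i : ℕ)) : Finset ℤ) := by
  have main : ∀ p q : Fin r → Fin N, (p = q ∨ ∃ i, (p i : ℕ) = q i + 1 ∧ ∀ j, j ≠ i → p j = q j) →
      ∃ o : Option (Fin r), 3 * (N : ℤ) ^ r + o.elim 0 (fun i => (N : ℤ) ^ (i : ℕ)) =
        sumLab r N (false, p) + sumLab r N (true, q) := by
    intro p q h
    rcases h with rfl | ⟨i, h1, h2⟩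
    · exact ⟨none, by simp [sumLab]⟩
    · refine ⟨some i, ?_⟩
      have := code_step r N p q i h1 h2
      simp only [sumLab, Option.elim_some, if_true, Bool.false_eq_true, if_false, this]
      push_cast
      ring
  rintro s ⟨x, y, hxy, rfl⟩
  rw [Finset.mem_coe, Finset.mem_image]
  rcases simplexGraph_adj_cases r N hxy with ⟨p, q, rfl, rfl, h⟩ | ⟨p, q, rfl, rfl, h⟩
  · obtain ⟨o, ho⟩ := main p q h
    exact ⟨o, Finset.mem_univ _, ho⟩
  · obtain ⟨o, ho⟩ := main p q h
    exact ⟨o, Finset.mem_univ _, by rw [ho]; ring⟩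

lemma sumIndex_le (r N : ℕ) : sumIndex (simplexGraph r N) ≤ r + 1 := by
  have h1 : (edgeSums (simplexGraph r N) (sumLab r N)).ncard ≤ r + 1 := by
    refine (Set.ncard_le_ncard (edgeSums_sumLab r N) (Finset.finite_toSet _)).trans ?_
    rw [Set.ncard_coe_finset]
    refine Finset.card_image_le.trans ?_
    simp
  have h2 : sumIndex (simplexGraph r N) ≤ (edgeSums (simplexGraph r N) (sumLab r N)).ncard :=
    Nat.sInf_le ⟨sumLab r N, sumLab_inj r N, rfl⟩
  exact h2.trans h1

/-- A vertex of degree `k` forces at least `k` sums. -/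
lemma le_sumIndex {V : Type} [Finite V] (G : SimpleGraph V) (k : ℕ) (x : V) (y : Fin k → V)
    (hy : Function.Injective y) (h : ∀ i, G.Adj x (y i)) (hne : ∃ f : V → ℤ, Function.Injective f) :
    k ≤ sumIndex G := by
  obtain ⟨f0, hf0⟩ := hne
  have hnonempty : {k | ∃ f : V → ℤ, Function.Injective f ∧ (edgeSums G f).ncard = k}.Nonempty :=
    ⟨_, f0, hf0, rfl⟩
  obtain ⟨f, hf, hk⟩ := Nat.sInf_mem hnonempty
  unfold sumIndex
  rw [← hk]
  have h1 : Set.range (fun i => f x + f (y i)) ⊆ edgeSums G f := by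
    rintro _ ⟨i, rfl⟩
    exact ⟨x, y i, h i, rfl⟩
  have h2 : (Set.range (fun i => f x + f (y i))).ncard = k := by
    rw [← Set.image_univ, Set.ncard_image_of_injective]
    · simp
    · intro i j hij
      exact hy (hf (by simpa using hij))
  rw [← h2]
  exact Set.ncard_le_ncard h1 (edgeSums_finite G f)

lemma le_sumIndex_simplex (r N : ℕ) (hN : 2 ≤ N) : r ≤ sumIndex (simplexGraph r N) := by
  let one : Fin r → Fin N := fun _ => ⟨1, by omega⟩
  let y : Fin r → Bool × (Fin r → Fin N) := fun i =>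
    (true, fun j => if j = i then (⟨0, by omega⟩ : Fin N) else ⟨1, by omega⟩)
  refine le_sumIndex (simplexGraph r N) r (false, one) y ?_ ?_ ⟨sumLab r N, sumLab_inj r N⟩
  · intro i j hij
    by_contra hne
    have := congrFun (congrArg Prod.snd hij) i
    simp [y, hne] at this
  · intro i
    rw [simplexGraph_adj]
    refine Or.inr ⟨i, by simp [one], ?_⟩
    intro j hj
    simp [one, hj]

/-- Every vertex is reached from the origin of the first copy by a short walk. -/
lemma walk_first (r N : ℕ) (hN : 0 < N) : ∀ s : ℕ, ∀ p : Fin r → Fin N, ∑ i, (p i : ℕ) = s →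
    ∃ w : (simplexGraph r N).Walk (false, fun _ => ⟨0, hN⟩) (false, p), w.length ≤ 2 * s := by
  intro s
  induction s with
  | zero =>
    intro p hp
    have : p = fun _ => ⟨0, hN⟩ := by
      funext i
      apply Fin.ext
      have := (Finset.sum_eq_zero_iff.mp hp) i (Finset.mem_univ i)
      simpa using this
    subst this
    exact ⟨SimpleGraph.Walk.nil, by simp⟩
  | succ s ih =>
    intro p hp
    obtain ⟨i, hi⟩ : ∃ i, (p i : ℕ) ≠ 0 := by
      by_contra hcon
      push Not at hcon
      simp [hcon] at hp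
    let q : Fin r → Fin N := Function.update p i ⟨(p i : ℕ) - 1, by omega⟩
    have hqi : (p i : ℕ) = q i + 1 := by
      simp only [q, Function.update_self]
      omega
    have hqj : ∀ j, j ≠ i → p j = q j := by
      intro j hj
      simp [q, hj]
    have hq : ∑ i, (q i : ℕ) = s := by
      have h1 := Finset.add_sum_erase Finset.univ (fun j => (p j : ℕ)) (Finset.mem_univ i)
      have h2 := Finset.add_sum_erase Finset.univ (fun j => (q j : ℕ)) (Finset.mem_univ i)
      have h3 : ∑ j ∈ Finset.univ.erase i, (p j : ℕ) = ∑ j ∈ Finset.univ.erase i, (q j : ℕ) :=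
        Finset.sum_congr rfl fun j hj => by rw [hqj j (Finset.ne_of_mem_erase hj)]
      omega
    obtain ⟨w, hw⟩ := ih q hq
    have a1 : (simplexGraph r N).Adj (false, q) (true, q) :=
      (simplexGraph_adj r N q q).mpr (Or.inl rfl)
    have a2 : (simplexGraph r N).Adj (false, p) (true, q) :=
      (simplexGraph_adj r N p q).mpr (Or.inr ⟨i, hqi, hqj⟩)
    refine ⟨(w.concat a1).concat a2.symm, ?_⟩
    simp only [SimpleGraph.Walk.length_concat]
    omega

lemma walk_all (r N : ℕ) (hN : 0 < N) (x : Bool × (Fin r → Fin N)) :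
    ∃ w : (simplexGraph r N).Walk (false, fun _ => ⟨0, hN⟩) x, w.length ≤ 2 * (r * N) + 1 := by
  obtain ⟨b, p⟩ := x
  have hs : ∑ i, (p i : ℕ) ≤ r * N := by
    calc ∑ i, (p i : ℕ) ≤ ∑ _i : Fin r, N := Finset.sum_le_sum fun i _ => (p i).isLt.le
      _ = r * N := by simp
  obtain ⟨w, hw⟩ := walk_first r N hN _ p rfl
  rcases b with _ | _
  · exact ⟨w, by omega⟩
  · have a1 : (simplexGraph r N).Adj (false, p) (true, p) :=
      (simplexGraph_adj r N p p).mpr (Or.inl rfl)
    exact ⟨w.concat a1, by rw [SimpleGraph.Walk.length_concat]; omega⟩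

lemma le_diffIndex (r : ℕ) (N : ℕ) (hN : 1 ≤ N) (hbig : (7 * (r + 1)) ^ r < N) :
    r + 1 ≤ diffIndex (simplexGraph (r + 1) N) := by
  have hnonempty : {k | ∃ f : Bool × (Fin (r + 1) → Fin N) → ℤ, Function.Injective f ∧
      (edgeDiffs (simplexGraph (r + 1) N) f).ncard = k}.Nonempty :=
    ⟨_, sumLab (r + 1) N, sumLab_inj (r + 1) N, rfl⟩
  obtain ⟨f, hf, hk⟩ := Nat.sInf_mem hnonempty
  unfold diffIndex
  rw [← hk]
  by_contra hcon
  have h1 := card_le_of_diffs (simplexGraph (r + 1) N) f hf (2 * ((r + 1) * N) + 1) r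
    (false, fun _ => ⟨0, hN⟩) (walk_all (r + 1) N hN) (by omega)
  have h2 : Fintype.card (Bool × (Fin (r + 1) → Fin N)) = 2 * N ^ (r + 1) := by simp
  rw [h2] at h1
  have h3 : 2 * (2 * ((r + 1) * N) + 1) + 1 ≤ 7 * (r + 1) * N := by nlinarith
  have h4 : 2 * N ^ (r + 1) ≤ (7 * (r + 1) * N) ^ r := h1.trans (Nat.pow_le_pow_left h3 r)
  rw [mul_pow] at h4
  have h5 : (7 * (r + 1)) ^ r * N ^ r < N * N ^ r :=
    Nat.mul_lt_mul_of_pos_right hbig (by positivity)
  have h6 : N ^ (r + 1) = N * N ^ r := by ring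
  omega

/-- For every `r` there is a bipartite graph with `r + 1 ≤ sm ≤ r + 2` and `df ≥ r + 1`. -/
theorem exists_bipartite (r : ℕ) : ∃ (V : Type) (_ : Fintype V) (G : SimpleGraph V),
    G.Colorable 2 ∧ G ≠ ⊥ ∧ r + 1 ≤ sumIndex G ∧ sumIndex G ≤ r + 2 ∧ r + 1 ≤ diffIndex G := by
  refine ⟨_, inferInstance, simplexGraph (r + 1) ((7 * (r + 1)) ^ r + 2), simplexGraph_colorable _ _,
    ?_, le_sumIndex_simplex _ _ (by omega), sumIndex_le _ _, le_diffIndex r _ (by omega) (by omega)⟩
  intro hbot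
  have h := (simplexGraph_adj (r + 1) ((7 * (r + 1)) ^ r + 2) (fun _ => 0) (fun _ => 0)).mpr (Or.inl rfl)
  rw [hbot] at h
  exact h

end Q122
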