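import Mathlib

set_option autoImplicit false

/-!
# Mixed graphs, orientations and weighted reachability
-/

namespace Q122

/-- A mixed graph with vertex set `V`, undirected edges indexed by `E` (parallel edges are
allowed; the two ends `(edge e).1`, `(edge e).2` are distinct and their order is irrelevant) and
arcs indexed by `A`, from `(arc a).1` to `(arc a).2`. -/
structure MixedGraph (V E A : Type) where
  edge : E → V × V
  arc : A → V × V
  edge_ne : ∀ e, (edge e).1 ≠ (edge e).2
  arc_ne : ∀ a, (arc a).1 ≠ (arc a).2

namespace MixedGraph

variable {V E A : Type}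

/-- One step from `u` to `v`: an arc used forwards or an edge used in either direction. -/
def Step (G : MixedGraph V E A) (u v : V) : Prop :=
  (∃ a, G.arc a = (u, v)) ∨ ∃ e, G.edge e = (u, v) ∨ G.edge e = (v, u)

/-- `v` is reachable from `u`. -/
def Reach (G : MixedGraph V E A) : V → V → Prop := Relation.ReflTransGen G.Step

open Classical in
/-- The weighted reachability
`R(G, w) = 2 ∑ v, (w v choose 2) + ∑ (u, v) with u ≠ v, w u * w v * κ(u, v)`. -/
noncomputable def R [Fintype V] (G : MixedGraph V E A) (w : V → ℕ) : ℕ :=
  2 * ∑ v, (w v).choose 2 + ∑ u, ∑ v, if u ≠ v ∧ G.Reach u v then w u * w v else 0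

/-- The orientation of `G` given by `o`: all arcs are kept and the edge `e` with ends
`(x, y) = edge e` is replaced by the arc `(x, y)` if `o e = true` and by `(y, x)` otherwise. The
result has no undirected edges. -/
def orient (G : MixedGraph V E A) (o : E → Bool) : MixedGraph V Empty (A ⊕ E) where
  edge := fun e => e.elim
  arc := Sum.elim G.arc (fun e => if o e then G.edge e else ((G.edge e).2, (G.edge e).1))
  edge_ne := fun e => e.elim
  arc_ne := by
    rintro (a | e)
    · exact G.arc_ne a
    · by_cases h : o e
      · simpa [h] using G.edge_ne e
      · simpa [h] using (G.edge_ne e).symm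

end MixedGraph

end Q122
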