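import Pool.Agent.Q122.MixedDefs

set_option autoImplicit false

/-!
# Butterfly networks of undirected switches lose almost all reachable pairs when oriented
-/

namespace Q122

namespace MixedGraph

variable {V E A I : Type}

lemma step_orient (G : MixedGraph V E A) (o : E → Bool) (u v : V)
    (h : (G.orient o).Step u v) :
    (∃ a, (G.arc a).1 = u ∧ (G.arc a).2 = v) ∨
    (∃ e, o e = true ∧ (G.edge e).1 = u ∧ (G.edge e).2 = v) ∨
    (∃ e, o e = false ∧ (G.edge e).2 = u ∧ (G.edge e).1 = v) := by
  rcases h with ⟨a, ha⟩ | ⟨e, -⟩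
  · rcases a with a | e
    · left
      have : G.arc a = (u, v) := ha
      exact ⟨a, by rw [this], by rw [this]⟩
    · right
      by_cases ho : o e = true
      · left
        have : G.edge e = (u, v) := by
          simpa [orient, ho] using ha
        exact ⟨e, ho, by rw [this], by rw [this]⟩
      · right
        have : ((G.edge e).2, (G.edge e).1) = (u, v) := by
          simpa [orient, ho] using ha
        rw [Prod.mk.injEq] at this
        exact ⟨e, by simpa using ho, this.1, this.2⟩
  · exact e.elim

lemma orient_step_arc (G : MixedGraph V E A) (o : E → Bool) (a : A) :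
    (G.orient o).Step (G.arc a).1 (G.arc a).2 := Or.inl ⟨Sum.inl a, rfl⟩

lemma orient_step_true (G : MixedGraph V E A) (o : E → Bool) (e : E) (h : o e = true) :
    (G.orient o).Step (G.edge e).1 (G.edge e).2 := Or.inl ⟨Sum.inr e, by simp [orient, h]⟩

lemma orient_step_false (G : MixedGraph V E A) (o : E → Bool) (e : E) (h : o e = false) :
    (G.orient o).Step (G.edge e).2 (G.edge e).1 := Or.inl ⟨Sum.inr e, by simp [orient, h]⟩

/-- Two copies of a network followed by a layer of undirected edges between two new vertices, fed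
by the two copies of an output. -/
def doubleG (G : MixedGraph V E A) (out : I → V) :
    MixedGraph ((Bool × V) ⊕ (Bool × I)) ((Bool × E) ⊕ I) ((Bool × A) ⊕ (Bool × I)) where
  edge := Sum.elim (fun e => (Sum.inl (e.1, (G.edge e.2).1), Sum.inl (e.1, (G.edge e.2).2)))
    (fun j => (Sum.inr (false, j), Sum.inr (true, j)))
  arc := Sum.elim (fun a => (Sum.inl (a.1, (G.arc a.2).1), Sum.inl (a.1, (G.arc a.2).2)))
    (fun p => (Sum.inl (p.1, out p.2), Sum.inr p))
  edge_ne := by
    rintro (⟨c, e⟩ | j)
    · simpa using G.edge_ne e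
    · simp
  arc_ne := by
    rintro (⟨c, a⟩ | ⟨c, j⟩)
    · simpa using G.arc_ne a
    · simp

/-- The inputs of the doubled network. -/
def doubleInp (inp : I → V) (x : Bool × I) : (Bool × V) ⊕ (Bool × I) := Sum.inl (x.1, inp x.2)

/-- The outputs of the doubled network. -/
def doubleOut (y : Bool × I) : (Bool × V) ⊕ (Bool × I) := Sum.inr y

lemma step_double_copy (G : MixedGraph V E A) (out : I → V) (c : Bool) {u v : V}
    (h : G.Step u v) : (doubleG G out).Step (Sum.inl (c, u)) (Sum.inl (c, v)) := by
  rcases h with ⟨a, ha⟩ | ⟨e, he | he⟩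
  · exact Or.inl ⟨Sum.inl (c, a), by simp [doubleG, ha]⟩
  · exact Or.inr ⟨Sum.inl (c, e), Or.inl (by simp [doubleG, he])⟩
  · exact Or.inr ⟨Sum.inl (c, e), Or.inr (by simp [doubleG, he])⟩

lemma reach_double_copy (G : MixedGraph V E A) (out : I → V) (c : Bool) {u v : V}
    (h : G.Reach u v) : (doubleG G out).Reach (Sum.inl (c, u)) (Sum.inl (c, v)) := by
  induction h with
  | refl => exact Relation.ReflTransGen.refl
  | tail _ h2 ih => exact ih.tail (step_double_copy G out c h2)

lemma reach_double (G : MixedGraph V E A) (inp out : I → V)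
    (h : ∀ x y, G.Reach (inp x) (out y)) (x y : Bool × I) :
    (doubleG G out).Reach (doubleInp inp x) (doubleOut y) := by
  obtain ⟨c, x⟩ := x
  obtain ⟨d, y⟩ := y
  have h1 := reach_double_copy G out c (h x y)
  have h2 : (doubleG G out).Step (Sum.inl (c, out y)) (Sum.inr (c, y)) :=
    Or.inl ⟨Sum.inr (c, y), rfl⟩
  have h3 : (doubleG G out).Reach (Sum.inr (c, y)) (Sum.inr (d, y)) := by
    rcases c with _ | _ <;> rcases d with _ | _
    · exact Relation.ReflTransGen.refl
    · exact Relation.ReflTransGen.single (Or.inr ⟨Sum.inr y, Or.inl rfl⟩)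
    · exact Relation.ReflTransGen.single (Or.inr ⟨Sum.inr y, Or.inr rfl⟩)
    · exact Relation.ReflTransGen.refl
  exact (h1.trans (Relation.ReflTransGen.single h2)).trans h3

/-- The set of vertices that may be reached from the input `(c, x)` of the doubled network. -/
def Inv (G : MixedGraph V E A) (inp out : I → V) (o : (Bool × E) ⊕ I → Bool) (c : Bool) (x : I) :
    (Bool × V) ⊕ (Bool × I) → Prop
  | Sum.inl (c', v) => c' = c ∧ (G.orient (fun e => o (Sum.inl (c, e)))).Reach (inp x) v
  | Sum.inr (d, j) => (G.orient (fun e => o (Sum.inl (c, e)))).Reach (inp x) (out j) ∧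
      (d = c ∨ o (Sum.inr j) = d)

lemma inv_step (G : MixedGraph V E A) (inp out : I → V) (o : (Bool × E) ⊕ I → Bool)
    (c : Bool) (x : I) (u v : (Bool × V) ⊕ (Bool × I)) (hu : Inv G inp out o c x u)
    (h : ((doubleG G out).orient o).Step u v) : Inv G inp out o c x v := by
  rcases step_orient _ _ _ _ h with ⟨a, rfl, rfl⟩ | ⟨e, ho, rfl, rfl⟩ | ⟨e, ho, rfl, rfl⟩
  · rcases a with ⟨c', a⟩ | ⟨c', j⟩
    · obtain ⟨h3, h4⟩ := hu
      exact ⟨h3, h4.tail (orient_step_arc G _ a)⟩
    · obtain ⟨h3, h4⟩ := hu
      exact ⟨h4, Or.inl h3⟩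
  · rcases e with ⟨c', e⟩ | j
    · obtain ⟨h3, h4⟩ := hu
      refine ⟨h3, h4.tail (orient_step_true G _ e ?_)⟩
      simp only at h3
      subst h3
      exact ho
    · exact ⟨hu.1, Or.inr ho⟩
  · rcases e with ⟨c', e⟩ | j
    · obtain ⟨h3, h4⟩ := hu
      refine ⟨h3, h4.tail (orient_step_false G _ e ?_)⟩
      simp only at h3
      subst h3
      exact ho
    · exact ⟨hu.1, Or.inr ho⟩

lemma inv_reach (G : MixedGraph V E A) (inp out : I → V) (o : (Bool × E) ⊕ I → Bool)
    (c : Bool) (x : I) (v : (Bool × V) ⊕ (Bool × I))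
    (h : ((doubleG G out).orient o).Reach (Sum.inl (c, inp x)) v) : Inv G inp out o c x v := by
  induction h with
  | refl => exact ⟨rfl, Relation.ReflTransGen.refl⟩
  | tail _ h2 ih => exact inv_step G inp out o c x _ _ ih h2

open Classical in
/-- The number of inputs from which the output `j` can be reached. -/
noncomputable def cnt [Fintype I] (G : MixedGraph V E A) (inp out : I → V) (o : E → Bool)
    (j : I) : ℕ :=
  (Finset.univ.filter fun x : I => (G.orient o).Reach (inp x) (out j)).card

lemma cnt_double [Fintype I] (G : MixedGraph V E A) (inp out : I → V)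
    (o : (Bool × E) ⊕ I → Bool) (d : Bool) (j : I) :
    cnt (doubleG G out) (doubleInp inp) doubleOut o (d, j) ≤
      cnt G inp out (fun e => o (Sum.inl (d, e))) j +
      if o (Sum.inr j) = d then cnt G inp out (fun e => o (Sum.inl (!d, e))) j else 0 := by
  classical
  have h1 : (Finset.univ.filter fun x : Bool × I =>
      ((doubleG G out).orient o).Reach (doubleInp inp x) (doubleOut (d, j))) ⊆
      ((Finset.univ.filter fun x : I =>
        (G.orient (fun e => o (Sum.inl (d, e)))).Reach (inp x) (out j)).image fun x => (d, x)) ∪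
      if o (Sum.inr j) = d then ((Finset.univ.filter fun x : I =>
        (G.orient (fun e => o (Sum.inl (!d, e)))).Reach (inp x) (out j)).image
          fun x => (!d, x)) else ∅ := by
    rintro ⟨c, x⟩ hx
    rw [Finset.mem_filter] at hx
    have h2 := inv_reach G inp out o c x _ hx.2
    obtain ⟨h3, h4⟩ := h2
    rw [Finset.mem_union]
    by_cases hcd : c = d
    · subst hcd
      left
      rw [Finset.mem_image]
      exact ⟨x, by simpa using h3, rfl⟩
    · right
      have h5 : o (Sum.inr j) = d := by
        rcases h4 with h4 | h4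
        · exact absurd h4.symm hcd
        · exact h4
      have h6 : c = !d := by
        cases c <;> cases d <;> simp_all
      subst h6
      rw [if_pos h5, Finset.mem_image]
      exact ⟨x, by simpa using h3, rfl⟩
  refine (Finset.card_le_card h1).trans ((Finset.card_union_le _ _).trans ?_)
  refine add_le_add Finset.card_image_le ?_
  split_ifs
  · exact Finset.card_image_le
  · simp

/-- The second moment at most doubles three-fold in each layer. -/
lemma sum_cnt_sq_double [Fintype I] (G : MixedGraph V E A) (inp out : I → V) (S : ℕ)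
    (hS : ∀ o, ∑ j, (cnt G inp out o j) ^ 2 ≤ S) (o : (Bool × E) ⊕ I → Bool) :
    ∑ j, (cnt (doubleG G out) (doubleInp inp) doubleOut o j) ^ 2 ≤ 6 * S := by
  have ih1 := hS (fun e => o (Sum.inl (true, e)))
  have ih2 := hS (fun e => o (Sum.inl (false, e)))
  rw [Fintype.sum_prod_type, Fintype.sum_bool, ← Finset.sum_add_distrib]
  have h1 : ∀ j : I, (cnt (doubleG G out) (doubleInp inp) doubleOut o (true, j)) ^ 2 +
      (cnt (doubleG G out) (doubleInp inp) doubleOut o (false, j)) ^ 2 ≤
      3 * (cnt G inp out (fun e => o (Sum.inl (true, e))) j) ^ 2 +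
        3 * (cnt G inp out (fun e => o (Sum.inl (false, e))) j) ^ 2 := by
    intro j
    have ht := cnt_double G inp out o true j
    have hf := cnt_double G inp out o false j
    simp only [Bool.not_true, Bool.not_false] at ht hf
    set a := cnt G inp out (fun e => o (Sum.inl (true, e))) j
    set b := cnt G inp out (fun e => o (Sum.inl (false, e))) j
    set p := cnt (doubleG G out) (doubleInp inp) doubleOut o (true, j)
    set q := cnt (doubleG G out) (doubleInp inp) doubleOut o (false, j)
    by_cases ho : o (Sum.inr j) = true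
    · rw [if_pos ho] at ht
      rw [if_neg (by simp [ho])] at hf
      have e1 : p ^ 2 ≤ (a + b) ^ 2 := Nat.pow_le_pow_left ht 2
      have e2 : q ^ 2 ≤ b ^ 2 := Nat.pow_le_pow_left (by simpa using hf) 2
      zify at e1 e2 ⊢
      nlinarith [sq_nonneg ((a : ℤ) - b), sq_nonneg (a : ℤ)]
    · rw [if_neg ho] at ht
      rw [if_pos (by simpa using ho)] at hf
      have e1 : p ^ 2 ≤ a ^ 2 := Nat.pow_le_pow_left (by simpa using ht) 2
      have e2 : q ^ 2 ≤ (b + a) ^ 2 := Nat.pow_le_pow_left hf 2
      zify at e1 e2 ⊢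
      nlinarith [sq_nonneg ((a : ℤ) - b), sq_nonneg (b : ℤ)]
  refine (Finset.sum_le_sum fun j _ => h1 j).trans ?_
  rw [Finset.sum_add_distrib, ← Finset.mul_sum, ← Finset.mul_sum]
  omega

/-- The network with one vertex. -/
def baseG : MixedGraph Unit Empty Empty where
  edge := fun e => e.elim
  arc := fun e => e.elim
  edge_ne := fun e => e.elim
  arc_ne := fun e => e.elim

/-- Existence of the butterfly network with `2 ^ n` inputs and outputs. -/
lemma exists_net (n : ℕ) : ∃ (V E A I : Type) (_ : Fintype V) (_ : Fintype E) (_ : Fintype A)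
    (_ : Fintype I) (G : MixedGraph V E A) (inp out : I → V),
    Fintype.card I = 2 ^ n ∧ (∀ x y, G.Reach (inp x) (out y)) ∧
      ∀ o, ∑ j, (cnt G inp out o j) ^ 2 ≤ 6 ^ n := by
  induction n with
  | zero =>
    refine ⟨Unit, Empty, Empty, Unit, inferInstance, inferInstance, inferInstance, inferInstance,
      baseG, id, id, rfl, fun _ _ => Relation.ReflTransGen.refl, ?_⟩
    intro o
    have h1 : ∀ j : Unit, cnt baseG id id o j ≤ 1 := by
      intro j
      classical
      unfold cnt
      exact (Finset.card_filter_le _ _)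
    calc _ ≤ ∑ _j : Unit, 1 := Finset.sum_le_sum fun j _ => by
          have := h1 j
          nlinarith
      _ = 6 ^ 0 := by simp
  | succ n ih =>
    obtain ⟨V, E, A, I, hV, hE, hA, hI, G, inp, out, h1, h2, h3⟩ := ih
    refine ⟨_, _, _, Bool × I, inferInstance, inferInstance, inferInstance, inferInstance,
      doubleG G out, doubleInp inp, doubleOut, ?_, reach_double G inp out h2, ?_⟩
    · rw [Fintype.card_prod, h1, Fintype.card_bool]
      ring
    · intro o
      have := sum_cnt_sq_double G inp out _ h3 o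
      rwa [pow_succ, mul_comm]

/-! ### Adding sources and sinks -/

/-- The network with a source before every input and a sink after every output. -/
def wrap (G : MixedGraph V E A) (inp out : I → V) :
    MixedGraph ((Bool × I) ⊕ V) E (A ⊕ (Bool × I)) where
  edge := fun e => (Sum.inr (G.edge e).1, Sum.inr (G.edge e).2)
  arc := Sum.elim (fun a => (Sum.inr (G.arc a).1, Sum.inr (G.arc a).2))
    (fun p => if p.1 then (Sum.inr (out p.2), Sum.inl (true, p.2))
      else (Sum.inl (false, p.2), Sum.inr (inp p.2)))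
  edge_ne := fun e => by simpa using G.edge_ne e
  arc_ne := by
    rintro (a | ⟨_ | _, x⟩)
    · simpa using G.arc_ne a
    · simp
    · simp

/-- Weight one on sources and sinks, zero elsewhere. -/
def wt : (Bool × I) ⊕ V → ℕ := Sum.elim (fun _ => 1) (fun _ => 0)

lemma step_wrap (G : MixedGraph V E A) (inp out : I → V) {u v : V} (h : G.Step u v) :
    (wrap G inp out).Step (Sum.inr u) (Sum.inr v) := by
  rcases h with ⟨a, ha⟩ | ⟨e, he | he⟩
  · exact Or.inl ⟨Sum.inl a, by simp [wrap, ha]⟩
  · exact Or.inr ⟨e, Or.inl (by simp [wrap, he])⟩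
  · exact Or.inr ⟨e, Or.inr (by simp [wrap, he])⟩

lemma reach_wrap_aux (G : MixedGraph V E A) (inp out : I → V) {u v : V} (h : G.Reach u v) :
    (wrap G inp out).Reach (Sum.inr u) (Sum.inr v) := by
  induction h with
  | refl => exact Relation.ReflTransGen.refl
  | tail _ h2 ih => exact ih.tail (step_wrap G inp out h2)

lemma reach_wrap (G : MixedGraph V E A) (inp out : I → V)
    (h : ∀ x y, G.Reach (inp x) (out y)) (x y : I) :
    (wrap G inp out).Reach (Sum.inl (false, x)) (Sum.inl (true, y)) := by
  have h1 : (wrap G inp out).Step (Sum.inl (false, x)) (Sum.inr (inp x)) :=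
    Or.inl ⟨Sum.inr (false, x), by simp [wrap]⟩
  have h2 : (wrap G inp out).Reach (Sum.inr (inp x)) (Sum.inr (out y)) :=
    reach_wrap_aux G inp out (h x y)
  have h3 : (wrap G inp out).Step (Sum.inr (out y)) (Sum.inl (true, y)) :=
    Or.inl ⟨Sum.inr (true, y), by simp [wrap]⟩
  exact ((Relation.ReflTransGen.single h1).trans h2).trans (Relation.ReflTransGen.single h3)

/-- The arcs of an orientation of the wrapped network. -/
lemma step_orient_wrap (G : MixedGraph V E A) (inp out : I → V) (o : E → Bool)
    (u v : (Bool × I) ⊕ V) (h : ((wrap G inp out).orient o).Step u v) :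
    (∃ x, u = Sum.inl (false, x) ∧ v = Sum.inr (inp x)) ∨
    (∃ y, u = Sum.inr (out y) ∧ v = Sum.inl (true, y)) ∨
    (∃ a b, u = Sum.inr a ∧ v = Sum.inr b ∧ (G.orient o).Step a b) := by
  rcases step_orient _ _ _ _ h with ⟨a, rfl, rfl⟩ | ⟨e, ho, rfl, rfl⟩ | ⟨e, ho, rfl, rfl⟩
  · rcases a with a | ⟨_ | _, x⟩
    · exact Or.inr (Or.inr ⟨_, _, rfl, rfl, orient_step_arc G o a⟩)
    · exact Or.inl ⟨x, by simp [wrap], by simp [wrap]⟩
    · exact Or.inr (Or.inl ⟨x, by simp [wrap], by simp [wrap]⟩)
  · exact Or.inr (Or.inr ⟨_, _, rfl, rfl, orient_step_true G o e ho⟩)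
  · exact Or.inr (Or.inr ⟨_, _, rfl, rfl, orient_step_false G o e ho⟩)

/-- What may be reached from the source `x` in an orientation of the wrapped network. -/
def WInv (G : MixedGraph V E A) (inp out : I → V) (o : E → Bool) (x : I) :
    (Bool × I) ⊕ V → Prop
  | Sum.inl (false, x') => x' = x
  | Sum.inl (true, y) => (G.orient o).Reach (inp x) (out y)
  | Sum.inr v => (G.orient o).Reach (inp x) v

lemma winv_reach (G : MixedGraph V E A) (inp out : I → V) (o : E → Bool) (x : I)
    (v : (Bool × I) ⊕ V)
    (h : ((wrap G inp out).orient o).Reach (Sum.inl (false, x)) v) :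
    WInv G inp out o x v := by
  induction h with
  | refl => exact rfl
  | tail _ h2 ih =>
    rcases step_orient_wrap G inp out o _ _ h2 with ⟨x', rfl, rfl⟩ | ⟨y, rfl, rfl⟩ |
      ⟨a, b, rfl, rfl, h⟩
    · have : x' = x := ih
      subst this
      exact Relation.ReflTransGen.refl
    · exact ih
    · exact Relation.ReflTransGen.tail ih h

lemma reach_from_sink (G : MixedGraph V E A) (inp out : I → V) (o : E → Bool) (y : I)
    (v : (Bool × I) ⊕ V) (h : ((wrap G inp out).orient o).Reach (Sum.inl (true, y)) v) :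
    v = Sum.inl (true, y) := by
  induction h with
  | refl => rfl
  | tail _ h2 ih =>
    subst ih
    rcases step_orient_wrap G inp out o _ _ h2 with ⟨x', h, -⟩ | ⟨y, h, -⟩ | ⟨a, b, h, -⟩ <;>
      simp at h

lemma sum_wrap [Fintype I] [Fintype V] (f : (Bool × I) ⊕ V → ℕ) : ∑ u, f u =
      (∑ x : I, f (Sum.inl (true, x))) + (∑ x : I, f (Sum.inl (false, x))) +
      ∑ v : V, f (Sum.inr v) := by
  rw [Fintype.sum_sum_type, Fintype.sum_prod_type, Fintype.sum_bool]

lemma R_orient_le [Fintype I] [Fintype V] (G : MixedGraph V E A) (inp out : I → V)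
    (o : E → Bool) :
    ((wrap G inp out).orient o).R wt ≤ ∑ y, cnt G inp out o y := by
  classical
  unfold MixedGraph.R
  have h0 : ∀ v : (Bool × I) ⊕ V, (wt v).choose 2 = 0 := by
    rintro (v | v) <;> rfl
  rw [Finset.sum_eq_zero (fun v _ => h0 v), mul_zero, zero_add]
  let F : (Bool × I) ⊕ V → (Bool × I) ⊕ V → ℕ := fun u v =>
    if u ≠ v ∧ ((wrap G inp out).orient o).Reach u v then wt u * wt v else 0
  have hF : ∑ u, ∑ v, F u v ≤ ∑ y, cnt G inp out o y := by
    rw [sum_wrap]
    simp only [sum_wrap]
    have z1 : ∀ (u : (Bool × I) ⊕ V) (v : V), F u (Sum.inr v) = 0 := by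
      intro u v
      simp [F, wt]
    have z2 : ∀ (v : V) (u : (Bool × I) ⊕ V), F (Sum.inr v) u = 0 := by
      intro u v
      simp [F, wt]
    have z3 : ∀ (x : I) (v : (Bool × I) ⊕ V), F (Sum.inl (true, x)) v = 0 := by
      intro x v
      simp only [F]
      rw [if_neg]
      rintro ⟨h1, h2⟩
      exact h1 (reach_from_sink G inp out o x v h2).symm
    have z4 : ∀ x y : I, F (Sum.inl (false, x)) (Sum.inl (false, y)) = 0 := by
      intro x y
      simp only [F]
      rw [if_neg]
      rintro ⟨h1, h2⟩
      have := winv_reach G inp out o x _ h2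
      exact h1 (by rw [show y = x from this])
    simp only [z1, z2, z3, z4, Finset.sum_const_zero, add_zero, zero_add]
    rw [Finset.sum_comm]
    refine Finset.sum_le_sum fun y _ => ?_
    unfold cnt
    rw [Finset.card_filter]
    refine Finset.sum_le_sum fun x _ => ?_
    simp only [F]
    split_ifs with h h'
    · exact le_rfl
    · exact absurd (winv_reach G inp out o x _ h.2) h'
    · exact Nat.zero_le _
    · exact le_rfl
  convert hF using 3
  simp only [F]
  congr

lemma le_R_wrap [Fintype I] [Fintype V] (G : MixedGraph V E A) (inp out : I → V)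
    (h : ∀ x y, G.Reach (inp x) (out y)) :
    Fintype.card I * Fintype.card I ≤ (wrap G inp out).R wt := by
  classical
  unfold MixedGraph.R
  let F : (Bool × I) ⊕ V → (Bool × I) ⊕ V → ℕ := fun u v =>
    if u ≠ v ∧ (wrap G inp out).Reach u v then wt u * wt v else 0
  have h4 : ∀ x y : I, F (Sum.inl (false, x)) (Sum.inl (true, y)) = 1 := by
    intro x y
    simp only [F]
    rw [if_pos ⟨by simp, reach_wrap G inp out h x y⟩]
    rfl
  have hF : Fintype.card I * Fintype.card I ≤ ∑ u, ∑ v, F u v := by
    rw [sum_wrap]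
    have h5 : Fintype.card I * Fintype.card I ≤ ∑ x : I, ∑ v, F (Sum.inl (false, x)) v := by
      calc Fintype.card I * Fintype.card I = ∑ _x : I, Fintype.card I := by
            simp
        _ ≤ _ := Finset.sum_le_sum fun x _ => by
            rw [sum_wrap]
            simp only [h4, Finset.sum_const, Finset.card_univ, smul_eq_mul, mul_one]
            omega
    omega
  refine hF.trans (le_trans (le_of_eq ?_) (Nat.le_add_left _ _))
  refine Finset.sum_congr rfl fun u _ => Finset.sum_congr rfl fun v _ => ?_
  simp only [F]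
  congr

/-- For every `n` there is a mixed graph with `0/1` weights and at least `4 ^ n` reachable
weighted pairs, every orientation of which keeps at most `12 ^ (n / 2)` of them. -/
theorem butterfly (n : ℕ) : ∃ (V E A : Type) (_ : Fintype V) (_ : Fintype E) (_ : Fintype A)
    (G : MixedGraph V E A) (w : V → ℕ), 4 ^ n ≤ G.R w ∧
      ∀ o : E → Bool, ((G.orient o).R w) ^ 2 ≤ 12 ^ n := by
  obtain ⟨V, E, A, I, hV, hE, hA, hI, G, inp, out, h1, h2, h3⟩ := exists_net n
  refine ⟨_, E, _, inferInstance, inferInstance, inferInstance, wrap G inp out, wt, ?_, ?_⟩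
  · have := le_R_wrap G inp out h2
    rw [h1, ← mul_pow] at this
    norm_num at this
    exact this
  · intro o
    have e1 := R_orient_le G inp out o
    have e2 := h3 o
    have e3 : (∑ y, cnt G inp out o y) ^ 2 ≤ 2 ^ n * ∑ y, (cnt G inp out o y) ^ 2 := by
      have := sq_sum_le_card_mul_sum_sq (s := (Finset.univ : Finset I))
        (f := fun y => cnt G inp out o y)
      rwa [Finset.card_univ, h1] at this
    calc (((wrap G inp out).orient o).R wt) ^ 2 ≤ (∑ y, cnt G inp out o y) ^ 2 :=
          Nat.pow_le_pow_left e1 2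
      _ ≤ 2 ^ n * ∑ y, (cnt G inp out o y) ^ 2 := e3
      _ ≤ 2 ^ n * 6 ^ n := Nat.mul_le_mul_left _ e2
      _ = 12 ^ n := by rw [← mul_pow]; norm_num

end MixedGraph

end Q122
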