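import Pool.Agent.Q122.AscDefs

set_option autoImplicit false

/-!
# Extension properties of almost all graphs
-/

namespace Q122.RG

set_option linter.unusedSectionVars false

variable {V : Type} [Fintype V] [DecidableEq V] {k : ℕ}

/-- Change the adjacencies between `x` and the vertices `t i` to the pattern `p`. -/
def setE (x : V) (t : Fin k → V) (p : Fin k → Bool) (G : SimpleGraph V) : SimpleGraph V where
  Adj a b := a ≠ b ∧ ((∃ i, s(a, b) = s(x, t i) ∧ p i = true) ∨
    ((∀ i, s(a, b) ≠ s(x, t i)) ∧ G.Adj a b))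
  symm := ⟨by
    rintro a b ⟨h1, h2⟩
    refine ⟨h1.symm, ?_⟩
    rw [Sym2.eq_swap (a := b) (b := a), G.adj_comm b a]
    exact h2⟩
  loopless := ⟨fun a h => h.1 rfl⟩

/-- The pattern of `G` at `x`. -/
noncomputable def pat (x : V) (t : Fin k → V) (G : SimpleGraph V) (i : Fin k) : Bool :=
  open Classical in decide (G.Adj x (t i))

lemma pat_eq_true (x : V) (t : Fin k → V) (G : SimpleGraph V) (i : Fin k) :
    pat x t G i = true ↔ G.Adj x (t i) := by
  simp [pat]

lemma setE_adj_pat (x : V) (t : Fin k → V) (ht : Function.Injective t) (hx : ∀ i, t i ≠ x)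
    (p : Fin k → Bool) (G : SimpleGraph V) (i : Fin k) :
    (setE x t p G).Adj x (t i) ↔ p i = true := by
  simp only [setE]
  constructor
  · rintro ⟨_, ⟨j, h, hp⟩ | ⟨h, _⟩⟩
    · rw [Sym2.eq_iff] at h
      rcases h with ⟨_, h⟩ | ⟨h, h'⟩
      · rwa [ht h]
      · exact absurd h' (hx i)
    · exact absurd rfl (h i)
  · intro h
    exact ⟨(hx i).symm, Or.inl ⟨i, rfl, h⟩⟩

lemma setE_adj_of_ne (x : V) (t : Fin k → V) (p : Fin k → Bool) (G : SimpleGraph V) (a b : V)
    (h : ∀ i, s(a, b) ≠ s(x, t i)) : (setE x t p G).Adj a b ↔ G.Adj a b := by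
  simp only [setE]
  constructor
  · rintro ⟨_, ⟨j, h', _⟩ | ⟨_, h'⟩⟩
    · exact absurd h' (h j)
    · exact h'
  · intro h'
    exact ⟨G.ne_of_adj h', Or.inr ⟨h, h'⟩⟩

lemma setE_setE_pat (x : V) (t : Fin k → V) (p : Fin k → Bool) (G : SimpleGraph V) :
    setE x t (pat x t G) (setE x t p G) = G := by
  ext a b
  by_cases h : ∃ i, s(a, b) = s(x, t i)
  · obtain ⟨i, hi⟩ := h
    constructor
    · rintro ⟨_, ⟨j, h', hp⟩ | ⟨h', _⟩⟩
      · rw [pat_eq_true, ← SimpleGraph.mem_edgeSet, ← h', SimpleGraph.mem_edgeSet] at hp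
        exact hp
      · exact absurd hi (h' i)
    · intro h'
      refine ⟨G.ne_of_adj h', Or.inl ⟨i, hi, ?_⟩⟩
      rw [pat_eq_true, ← SimpleGraph.mem_edgeSet, ← hi, SimpleGraph.mem_edgeSet]
      exact h'
  · push Not at h
    rw [setE_adj_of_ne x t _ _ a b h, setE_adj_of_ne x t _ _ a b h]

/-- The vertex `x` realizes the pattern `q` on the vertices `t i`. -/
def Real (t : Fin k → V) (q : Fin k → Bool) (x : V) (G : SimpleGraph V) : Prop :=
  ∀ i, G.Adj x (t i) ↔ q i = true

/-- No vertex of `X` realizes the pattern. -/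
def NoReal (t : Fin k → V) (q : Fin k → Bool) (X : Finset V) (G : SimpleGraph V) : Prop :=
  ∀ x ∈ X, ¬ Real t q x G

lemma noReal_setE (t : Fin k → V) (q p : Fin k → Bool) (X : Finset V) (x : V)
    (hx : x ∉ X) (hXt : ∀ y ∈ X, ∀ i, t i ≠ y) (hxt : ∀ i, t i ≠ x) (G : SimpleGraph V) :
    NoReal t q X (setE x t p G) ↔ NoReal t q X G := by
  have h : ∀ y ∈ X, ∀ i, (setE x t p G).Adj y (t i) ↔ G.Adj y (t i) := by
    intro y hy i
    apply setE_adj_of_ne
    intro j h
    rw [Sym2.eq_iff] at h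
    rcases h with ⟨h, _⟩ | ⟨h, _⟩
    · exact hx (h ▸ hy)
    · exact hXt y hy j h.symm
  unfold NoReal Real
  constructor
  · intro h1 y hy h2
    exact h1 y hy fun i => (h y hy i).trans (h2 i)
  · intro h1 y hy h2
    exact h1 y hy fun i => (h y hy i).symm.trans (h2 i)

lemma card_step (t : Fin k → V) (ht : Function.Injective t) (q : Fin k → Bool) (X : Finset V)
    (x : V) (hx : x ∉ X) (hXt : ∀ y ∈ X, ∀ i, t i ≠ y) (hxt : ∀ i, t i ≠ x) :
    Nat.card {G : SimpleGraph V // NoReal t q X G} ≤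
      2 ^ k * Nat.card {G : SimpleGraph V // NoReal t q X G ∧ Real t q x G} := by
  have h1 : Nat.card {G : SimpleGraph V // NoReal t q X G} ≤
      Nat.card ((Fin k → Bool) × {G : SimpleGraph V // NoReal t q X G ∧ Real t q x G}) := by
    refine Nat.card_le_card_of_injective (fun G => (pat x t G.1, ⟨setE x t q G.1, ?_, ?_⟩)) ?_
    · exact (noReal_setE t q q X x hx hXt hxt G.1).2 G.2
    · exact fun i => setE_adj_pat x t ht hxt q G.1 i
    · intro G H h
      rw [Prod.mk.injEq] at h
      obtain ⟨h1, h2⟩ := h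
      have h3 : setE x t q G.1 = setE x t q H.1 := congrArg Subtype.val h2
      apply Subtype.ext
      rw [← setE_setE_pat x t q G.1, ← setE_setE_pat x t q H.1, h1, h3]
  rw [Nat.card_prod] at h1
  simpa using h1

/-- The number of graphs with property `P`. -/
noncomputable def cnt (V : Type) (P : SimpleGraph V → Prop) : ℕ := Nat.card {G // P G}

lemma cnt_eq (P : SimpleGraph V → Prop) [DecidablePred P] :
    cnt V P = (Finset.univ.filter P).card := by
  classical
  unfold cnt
  rw [Nat.card_eq_fintype_card, Fintype.card_subtype]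

lemma cnt_add (P Q : SimpleGraph V → Prop) :
    cnt V P = cnt V (fun G => P G ∧ Q G) + cnt V (fun G => P G ∧ ¬ Q G) := by
  classical
  rw [cnt_eq, cnt_eq, cnt_eq, ← Finset.filter_filter, ← Finset.filter_filter,
    Finset.card_filter_add_card_filter_not]

lemma cnt_mono (P Q : SimpleGraph V → Prop) (h : ∀ G, P G → Q G) : cnt V P ≤ cnt V Q := by
  classical
  rw [cnt_eq, cnt_eq]
  exact Finset.card_le_card fun G hG => by
    rw [Finset.mem_filter] at hG ⊢
    exact ⟨hG.1, h G hG.2⟩

lemma cnt_exists {ι : Type} [Fintype ι] (P : ι → SimpleGraph V → Prop) :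
    cnt V (fun G => ∃ i, P i G) ≤ ∑ i, cnt V (P i) := by
  classical
  rw [cnt_eq]
  simp only [cnt_eq]
  have : (Finset.univ.filter fun G => ∃ i, P i G) =
      Finset.univ.biUnion fun i => Finset.univ.filter (P i) := by
    ext G; simp
  rw [this]
  exact Finset.card_biUnion_le

lemma cnt_noReal_insert (t : Fin k → V) (ht : Function.Injective t) (q : Fin k → Bool)
    (X : Finset V) (x : V) (hx : x ∉ X) (hXt : ∀ y ∈ X, ∀ i, t i ≠ y) (hxt : ∀ i, t i ≠ x) :
    (cnt V (NoReal t q (insert x X)) : ℝ) ≤ (1 - 1 / 2 ^ k) * cnt V (NoReal t q X) := by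
  have h1 := card_step t ht q X x hx hXt hxt
  have h2 := cnt_add (NoReal t q X) (Real t q x)
  have h3 : cnt V (NoReal t q (insert x X)) = cnt V (fun G => NoReal t q X G ∧ ¬ Real t q x G) := by
    congr 1
    funext G
    apply propext
    unfold NoReal
    simp only [Finset.mem_insert, forall_eq_or_imp]
    exact and_comm
  have h1' : (cnt V (NoReal t q X) : ℝ) ≤
      2 ^ k * cnt V (fun G => NoReal t q X G ∧ Real t q x G) := by
    have : cnt V (NoReal t q X) ≤ 2 ^ k * cnt V (fun G => NoReal t q X G ∧ Real t q x G) := h1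
    exact_mod_cast this
  have h2' : (cnt V (NoReal t q X) : ℝ) = cnt V (fun G => NoReal t q X G ∧ Real t q x G) +
      cnt V (fun G => NoReal t q X G ∧ ¬ Real t q x G) := by exact_mod_cast h2
  rw [h3]
  have hk : (0 : ℝ) < 2 ^ k := by positivity
  have h4 : (cnt V (NoReal t q X) : ℝ) / 2 ^ k ≤
      cnt V (fun G => NoReal t q X G ∧ Real t q x G) := by
    rw [div_le_iff₀ hk, mul_comm]
    exact h1'
  have h5 : (1 - 1 / 2 ^ k) * (cnt V (NoReal t q X) : ℝ) =
      cnt V (NoReal t q X) - cnt V (NoReal t q X) / 2 ^ k := by ring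
  rw [h5]
  linarith

lemma cnt_noReal (t : Fin k → V) (ht : Function.Injective t) (q : Fin k → Bool)
    (X : Finset V) (hXt : ∀ y ∈ X, ∀ i, t i ≠ y) :
    (cnt V (NoReal t q X) : ℝ) ≤ (1 - 1 / 2 ^ k) ^ X.card * Nat.card (SimpleGraph V) := by
  induction X using Finset.induction_on with
  | empty =>
    rw [Finset.card_empty, pow_zero, one_mul]
    exact_mod_cast Nat.card_le_card_of_injective
      (Subtype.val : {G // NoReal t q ∅ G} → SimpleGraph V) Subtype.val_injective
  | insert x X hx ih =>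
    have h1 := cnt_noReal_insert t ht q X x hx (fun y hy => hXt y (Finset.mem_insert_of_mem hy))
      (hXt x (Finset.mem_insert_self _ _))
    have h2 := ih (fun y hy => hXt y (Finset.mem_insert_of_mem hy))
    have h0 : (0 : ℝ) ≤ 1 - 1 / 2 ^ k := by
      have : (1 : ℝ) / 2 ^ k ≤ 1 := by
        rw [div_le_one (by positivity)]
        exact one_le_pow₀ (by norm_num)
      linarith
    calc (cnt V (NoReal t q (insert x X)) : ℝ) ≤ (1 - 1 / 2 ^ k) * cnt V (NoReal t q X) := h1
      _ ≤ (1 - 1 / 2 ^ k) * ((1 - 1 / 2 ^ k) ^ X.card * Nat.card (SimpleGraph V)) :=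
          mul_le_mul_of_nonneg_left h2 h0
      _ = _ := by rw [Finset.card_insert_of_notMem hx, pow_succ]; ring

/-- The `k`-extension property: every pattern on `k` distinct vertices is realized by another
vertex. -/
def ExtP (k : ℕ) (G : SimpleGraph V) : Prop :=
  ∀ t : Fin k → V, Function.Injective t → ∀ q : Fin k → Bool, ∃ x, (∀ i, t i ≠ x) ∧ Real t q x G

lemma cnt_not_extP (k : ℕ) : (cnt V (fun G => ¬ ExtP k G) : ℝ) ≤
    (Fintype.card V : ℝ) ^ k * 2 ^ k * (1 - 1 / 2 ^ k) ^ (Fintype.card V - k) *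
      Nat.card (SimpleGraph V) := by
  classical
  have h0 : (0 : ℝ) ≤ 1 - 1 / 2 ^ k := by
    have : (1 : ℝ) / 2 ^ k ≤ 1 := by
      rw [div_le_one (by positivity)]
      exact one_le_pow₀ (by norm_num)
    linarith
  let P : (Fin k → V) × (Fin k → Bool) → SimpleGraph V → Prop := fun p G =>
    Function.Injective p.1 ∧ NoReal p.1 p.2 (Finset.univ \ Finset.univ.image p.1) G
  have h1 : cnt V (fun G => ¬ ExtP k G) ≤ cnt V (fun G => ∃ p, P p G) := by
    apply cnt_mono
    intro G hG
    unfold ExtP at hG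
    push Not at hG
    obtain ⟨t, ht, q, hq⟩ := hG
    refine ⟨(t, q), ht, ?_⟩
    intro x hx
    refine hq x ?_
    intro i hi
    rw [Finset.mem_sdiff] at hx
    exact hx.2 (by rw [← hi]; exact Finset.mem_image_of_mem _ (Finset.mem_univ i))
  have h2 := cnt_exists P
  have h3 : ∀ p, (cnt V (P p) : ℝ) ≤
      (1 - 1 / 2 ^ k) ^ (Fintype.card V - k) * Nat.card (SimpleGraph V) := by
    rintro ⟨t, q⟩
    by_cases ht : Function.Injective t
    · have e1 : cnt V (P (t, q)) ≤
          cnt V (NoReal t q (Finset.univ \ Finset.univ.image t)) := by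
        apply cnt_mono
        intro G hG
        exact hG.2
      have e2 := cnt_noReal t ht q (Finset.univ \ Finset.univ.image t) (by
        intro y hy i hi
        rw [Finset.mem_sdiff] at hy
        exact hy.2 (by rw [← hi]; exact Finset.mem_image_of_mem _ (Finset.mem_univ i)))
      have e3 : (Finset.univ \ Finset.univ.image t).card = Fintype.card V - k := by
        rw [Finset.card_sdiff_of_subset (Finset.subset_univ _), Finset.card_univ,
          Finset.card_image_of_injective _ ht, Finset.card_univ, Fintype.card_fin]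
      rw [e3] at e2
      exact le_trans (by exact_mod_cast e1) e2
    · have e1 : cnt V (P (t, q)) = 0 := by
        rw [cnt_eq, Finset.card_eq_zero, Finset.filter_eq_empty_iff]
        intro G _ hG
        exact ht hG.1
      rw [e1]
      push_cast
      positivity
  calc (cnt V (fun G => ¬ ExtP k G) : ℝ) ≤ ∑ p, (cnt V (P p) : ℝ) := by
        exact_mod_cast h1.trans h2
    _ ≤ ∑ _p : (Fin k → V) × (Fin k → Bool),
        (1 - 1 / 2 ^ k) ^ (Fintype.card V - k) * (Nat.card (SimpleGraph V) : ℝ) :=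
        Finset.sum_le_sum fun p _ => h3 p
    _ = _ := by
        rw [Finset.sum_const, Finset.card_univ, nsmul_eq_mul, Fintype.card_prod,
          Fintype.card_fun, Fintype.card_fun, Fintype.card_fin, Fintype.card_bool]
        push_cast
        ring

end Q122.RG

namespace Q122

open Filter Topology

lemma card_graph_pos (n : ℕ) : (0 : ℝ) < Nat.card (SimpleGraph (Fin n)) := by
  have : 0 < Nat.card (SimpleGraph (Fin n)) := Nat.card_pos
  exact_mod_cast this

/-- A property that follows from an extension property on large vertex sets holds for almost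
every graph. -/
theorem tendsto_graphProb (k N : ℕ) (P : ∀ n, SimpleGraph (Fin n) → Prop)
    (h : ∀ n, N ≤ n → ∀ G : SimpleGraph (Fin n), RG.ExtP k G → P n G) :
    Tendsto (fun n => graphProb n (P n)) atTop (𝓝 1) := by
  set c : ℝ := 1 - 1 / 2 ^ k with hc
  have hk : (1 : ℝ) ≤ 2 ^ k := one_le_pow₀ (by norm_num)
  have hc0 : 0 ≤ c := by
    have : (1 : ℝ) / 2 ^ k ≤ 1 := by
      rw [div_le_one (by positivity)]
      exact hk
    linarith
  have hc1 : c < 1 := by
    have : (0 : ℝ) < 1 / 2 ^ k := by positivity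
    linarith
  have hlow : ∀ᶠ n : ℕ in atTop, 1 - (n : ℝ) ^ k * 2 ^ k * c ^ (n - k) ≤ graphProb n (P n) := by
    filter_upwards [eventually_ge_atTop N] with n hn
    have hpos := card_graph_pos n
    unfold graphProb
    rw [le_div_iff₀ hpos]
    have e1 := RG.cnt_not_extP (V := Fin n) k
    have e2 := RG.cnt_add (V := Fin n) (fun _ => True) (fun G => RG.ExtP k G)
    have e3 : RG.cnt (Fin n) (fun _ => True) = Nat.card (SimpleGraph (Fin n)) := by
      unfold RG.cnt
      exact Nat.card_congr (Equiv.subtypeUnivEquiv fun _ => trivial)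
    have e4 : RG.cnt (Fin n) (fun G => True ∧ RG.ExtP k G) ≤ RG.cnt (Fin n) (P n) :=
      RG.cnt_mono _ _ fun G hG => h n hn G hG.2
    have e5 : RG.cnt (Fin n) (fun G => True ∧ ¬ RG.ExtP k G) =
        RG.cnt (Fin n) (fun G => ¬ RG.ExtP k G) := by
      simp only [true_and]
    rw [e3, e5] at e2
    have e2' : (Nat.card (SimpleGraph (Fin n)) : ℝ) =
        RG.cnt (Fin n) (fun G => True ∧ RG.ExtP k G) +
          RG.cnt (Fin n) (fun G => ¬ RG.ExtP k G) := by exact_mod_cast e2
    have e4' : (RG.cnt (Fin n) (fun G => True ∧ RG.ExtP k G) : ℝ) ≤ RG.cnt (Fin n) (P n) := by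
      exact_mod_cast e4
    rw [Fintype.card_fin] at e1
    have e6 : (Nat.card {G : SimpleGraph (Fin n) // P n G} : ℝ) = RG.cnt (Fin n) (P n) := rfl
    rw [e6, sub_mul, one_mul]
    linarith
  have hup : ∀ n, graphProb n (P n) ≤ 1 := by
    intro n
    unfold graphProb
    rw [div_le_one (card_graph_pos n)]
    exact_mod_cast Nat.card_le_card_of_injective
      (Subtype.val : {G : SimpleGraph (Fin n) // P n G} → _) Subtype.val_injective
  have hlim : Tendsto (fun n : ℕ => (n : ℝ) ^ k * 2 ^ k * c ^ (n - k)) atTop (𝓝 0) := by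
    rw [← tendsto_add_atTop_iff_nat k]
    have h1 : ∀ j : ℕ, Tendsto (fun n : ℕ => (n : ℝ) ^ j * c ^ n) atTop (𝓝 0) := fun j =>
      tendsto_pow_const_mul_const_pow_of_lt_one j hc0 hc1
    have h2 : Tendsto (fun n : ℕ => ((n : ℝ) + k) ^ k * c ^ n) atTop (𝓝 0) := by
      have h3 : ∀ n : ℕ, ((n : ℝ) + k) ^ k * c ^ n =
          ∑ m ∈ Finset.range (k + 1), ((k : ℝ) ^ (k - m) * (k.choose m)) *
            ((n : ℝ) ^ m * c ^ n) := by
        intro n
        rw [add_pow, Finset.sum_mul]
        refine Finset.sum_congr rfl fun m _ => ?_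
        ring
      simp only [h3]
      have h4 : (0 : ℝ) = ∑ m ∈ Finset.range (k + 1), ((k : ℝ) ^ (k - m) * (k.choose m)) * 0 := by
        simp
      rw [h4]
      exact tendsto_finsetSum _ fun m _ => (h1 m).const_mul _
    have h5 := h2.const_mul (2 ^ k)
    rw [mul_zero] at h5
    refine h5.congr fun n => ?_
    rw [Nat.add_sub_cancel]
    push_cast
    ring
  have hlim2 : Tendsto (fun n : ℕ => 1 - (n : ℝ) ^ k * 2 ^ k * c ^ (n - k)) atTop (𝓝 1) := by
    have := hlim.const_sub 1
    simpa using this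
  exact tendsto_of_tendsto_of_tendsto_of_le_of_le' hlim2 tendsto_const_nhds hlow
    (Eventually.of_forall hup)

end Q122
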