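import Mathlib

set_option autoImplicit false

/-!
# Sphere-of-influence metrics
-/

namespace Q122

/-- `d` is a metric on `V` (as a real function of two points). -/
structure IsMetric {V : Type*} (d : V → V → ℝ) : Prop where
  nonneg : ∀ i j, 0 ≤ d i j
  symm : ∀ i j, d i j = d j i
  eq_zero : ∀ i j, d i j = 0 ↔ i = j
  triangle : ∀ i j k, d i k ≤ d i j + d j k

/-- The radius of influence `r_i = min_{j ≠ i} d i j`. -/
noncomputable def radius {V : Type*} (d : V → V → ℝ) (i : V) : ℝ :=
  sInf {x | ∃ j, j ≠ i ∧ x = d i j}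

/-- `d` is a SIG-metric for the graph `G`. -/
structure IsSIGMetric {V : Type*} (G : SimpleGraph V) (d : V → V → ℝ) : Prop where
  isMetric : IsMetric d
  adj : ∀ i j, G.Adj i j → d i j < radius d i + radius d j
  not_adj : ∀ i j, i ≠ j → ¬ G.Adj i j → radius d i + radius d j ≤ d i j

/-- The `ℓ_1` distance on real functions on a finite type. -/
def d1 {ι : Type*} [Fintype ι] (x y : ι → ℝ) : ℝ := ∑ k, |x k - y k|

/-- `(V, d)` is `ℓ_1`-embeddable: for some `m` there are points `X i` of `ℝ ^ m` whose `ℓ_1`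
distances are given by `d`. -/
def L1Embeddable {V : Type*} (d : V → V → ℝ) : Prop :=
  ∃ (m : ℕ) (X : V → Fin m → ℝ), ∀ i j, d1 (X i) (X j) = d i j

end Q122
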