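import Pool.Agent.Q122.SigDefs

set_option autoImplicit false

/-!
# Every finite connected graph has an `ℓ_1`-embeddable SIG-metric

Vertices are inserted one by one, each of them far away from the ones that are already there. For
every vertex `m` that is not yet inserted but has a neighbour among the inserted ones we keep a
test point `P m`, above which `m` will be placed.
-/

namespace Q122

variable {ι κ : Type} [Fintype ι] [Fintype κ]

lemma d1_nonneg (x y : ι → ℝ) : 0 ≤ d1 x y := Finset.sum_nonneg fun _ _ => abs_nonneg _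

lemma d1_comm (x y : ι → ℝ) : d1 x y = d1 y x :=
  Finset.sum_congr rfl fun _ _ => abs_sub_comm _ _

lemma d1_self (x : ι → ℝ) : d1 x x = 0 := by simp [d1]

lemma d1_triangle (x y z : ι → ℝ) : d1 x z ≤ d1 x y + d1 y z := by
  unfold d1
  rw [← Finset.sum_add_distrib]
  exact Finset.sum_le_sum fun k _ => abs_sub_le _ _ _

lemma d1_elim (x y : ι → ℝ) (u v : κ → ℝ) :
    d1 (Sum.elim x u) (Sum.elim y v) = d1 x y + d1 u v := by
  simp [d1, Fintype.sum_sum_type]

variable {V : Type} [Fintype V] [DecidableEq V]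

/-- New coordinates of the vertex that is being inserted. -/
def full (M δ : ℝ) : Option V → ℝ
  | none => M
  | some _ => δ

/-- New coordinates of a test point that has been moved. -/
def part (δ : ℝ) (m : V) : Option V → ℝ
  | none => 0
  | some s => if s = m then δ else 0

/-- New coordinates of everything else. -/
def zer : Option V → ℝ := fun _ => 0

/-- The total weight of `full`. -/
noncomputable def tot (V : Type) [Fintype V] (M δ : ℝ) : ℝ := M + Fintype.card V * δ

lemma d1_full_zer (M δ : ℝ) (hM : 0 ≤ M) (hδ : 0 ≤ δ) :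
    d1 (full M δ : Option V → ℝ) zer = tot V M δ := by
  simp [d1, Fintype.sum_option, full, zer, tot, abs_of_nonneg hM, abs_of_nonneg hδ]

lemma d1_part_zer (δ : ℝ) (hδ : 0 ≤ δ) (m : V) : d1 (part δ m) (zer : Option V → ℝ) = δ := by
  simp only [d1, Fintype.sum_option, part, zer, sub_self, abs_zero, zero_add, sub_zero]
  rw [Finset.sum_eq_single m]
  · simp [abs_of_nonneg hδ]
  · intro b _ hb
    simp [hb]
  · simp

lemma d1_part_part (δ : ℝ) (hδ : 0 ≤ δ) (m s : V) (h : m ≠ s) :
    d1 (part δ m) (part δ s : Option V → ℝ) = 2 * δ := by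
  simp only [d1, Fintype.sum_option, part, sub_self, abs_zero, zero_add]
  have h1 : ∀ k : V, |(if k = m then δ else 0) - (if k = s then δ else 0)| =
      (if k = m then δ else 0) + (if k = s then δ else 0) := by
    intro k
    by_cases h2 : k = m
    · subst h2
      simp [h, abs_of_nonneg hδ]
    · by_cases h3 : k = s
      · subst h3
        simp [Ne.symm h, abs_of_nonneg hδ]
      · simp [h2, h3]
  simp only [h1, Finset.sum_add_distrib, Finset.sum_ite_eq', Finset.mem_univ, if_true]
  ring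

lemma d1_full_part (M δ : ℝ) (hM : 0 ≤ M) (hδ : 0 ≤ δ) (m : V) :
    d1 (full M δ : Option V → ℝ) (part δ m) = tot V M δ - δ := by
  simp only [d1, Fintype.sum_option, full, part, sub_zero, abs_of_nonneg hM, tot]
  have h1 : ∀ k : V, |δ - (if k = m then δ else 0)| = δ - (if k = m then δ else 0) := by
    intro k
    by_cases h2 : k = m
    · simp [h2]
    · simp [h2, abs_of_nonneg hδ]
  simp only [h1, Finset.sum_sub_distrib, Finset.sum_ite_eq', Finset.mem_univ, if_true,
    Finset.sum_const, Finset.card_univ, nsmul_eq_mul]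
  ring

/-- The conditions on inserted vertices (those of `A`), test points `P`, radii `r` and heights
`h`. -/
structure Stage (G : SimpleGraph V) (A : Finset V) (X P : V → ι → ℝ) (h r : V → ℝ) : Prop where
  rpos : ∀ c ∈ A, 0 < r c
  hnonneg : ∀ m, m ∉ A → (∃ c ∈ A, G.Adj m c) → 0 ≤ h m
  hatt : ∀ m, m ∉ A → (∃ c ∈ A, G.Adj m c) → ∃ c ∈ A, d1 (P m) (X c) = h m
  hmin : ∀ m, m ∉ A → (∃ c ∈ A, G.Adj m c) → ∀ c ∈ A, h m ≤ d1 (P m) (X c)
  hadj : ∀ m, m ∉ A → (∃ c ∈ A, G.Adj m c) → ∀ c ∈ A, G.Adj m c → d1 (P m) (X c) < h m + r c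
  hnadj : ∀ m, m ∉ A → (∃ c ∈ A, G.Adj m c) → ∀ c ∈ A, ¬ G.Adj m c →
    h m + r c ≤ d1 (P m) (X c)
  pair : ∀ m s, m ∉ A → s ∉ A → (∃ c ∈ A, G.Adj m c) → (∃ c ∈ A, G.Adj s c) → m ≠ s →
    h m + h s ≤ d1 (P m) (P s)
  rmin : ∀ c ∈ A, ∀ c' ∈ A, c' ≠ c → r c ≤ d1 (X c) (X c')
  radj : ∀ c ∈ A, ∀ c' ∈ A, G.Adj c c' → d1 (X c) (X c') < r c + r c'
  rnadj : ∀ c ∈ A, ∀ c' ∈ A, c ≠ c' → ¬ G.Adj c c' → r c + r c' ≤ d1 (X c) (X c')

/-- Radii are attained. -/
def Att (A : Finset V) (X : V → ι → ℝ) (r : V → ℝ) : Prop :=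
  ∀ c ∈ A, ∃ c' ∈ A, c' ≠ c ∧ d1 (X c) (X c') = r c

variable {G : SimpleGraph V}

open Classical in
/-- Points after the insertion of `v`. -/
noncomputable def newX (X P : V → ι → ℝ) (v : V) (M δ : ℝ) (c : V) : ι ⊕ Option V → ℝ :=
  if c = v then Sum.elim (P v) (full M δ) else Sum.elim (X c) zer

open Classical in
/-- Test points after the insertion of `v`. -/
noncomputable def newP (G : SimpleGraph V) (A : Finset V) (P : V → ι → ℝ) (v : V) (M δ : ℝ)
    (m : V) : ι ⊕ Option V → ℝ :=
  if ¬ G.Adj m v then Sum.elim (P m) zer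
  else if ∃ c ∈ A, G.Adj m c then Sum.elim (P m) (part δ m) else Sum.elim (P v) (full M δ)

open Classical in
/-- Heights after the insertion of `v`. -/
noncomputable def newh (G : SimpleGraph V) (A : Finset V) (h : V → ℝ) (v : V) (δ : ℝ)
    (m : V) : ℝ :=
  if ¬ G.Adj m v then h m else if ∃ c ∈ A, G.Adj m c then h m + δ else 0

open Classical in
/-- Radii after the insertion of `v`. -/
noncomputable def newr (h r : V → ℝ) (v : V) (M δ : ℝ) (c : V) : ℝ :=
  if c = v then h v + tot V M δ else r c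

lemma newX_self (X P : V → ι → ℝ) (v : V) (M δ : ℝ) :
    newX X P v M δ v = Sum.elim (P v) (full M δ) := by simp [newX]

lemma newX_ne (X P : V → ι → ℝ) (v : V) (M δ : ℝ) {c : V} (h : c ≠ v) :
    newX X P v M δ c = Sum.elim (X c) zer := by simp [newX, h]

/-- The three kinds of test points after the insertion of `v`. -/
lemma cases3 (A : Finset V) (P : V → ι → ℝ) (h : V → ℝ) (v : V) (M δ : ℝ) (m : V)
    (hmE : ∃ c ∈ insert v A, G.Adj m c) :
    (¬ G.Adj m v ∧ (∃ c ∈ A, G.Adj m c) ∧ newP G A P v M δ m = Sum.elim (P m) zer ∧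
      newh G A h v δ m = h m) ∨
    (G.Adj m v ∧ (∃ c ∈ A, G.Adj m c) ∧ newP G A P v M δ m = Sum.elim (P m) (part δ m) ∧
      newh G A h v δ m = h m + δ) ∨
    (G.Adj m v ∧ (¬ ∃ c ∈ A, G.Adj m c) ∧ newP G A P v M δ m = Sum.elim (P v) (full M δ) ∧
      newh G A h v δ m = 0) := by
  by_cases e1 : G.Adj m v
  · by_cases e2 : ∃ c ∈ A, G.Adj m c
    · right; left
      exact ⟨e1, e2, by simp only [newP, e1, not_true, if_false, if_pos e2],
        by simp only [newh, e1, not_true, if_false, if_pos e2]⟩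
    · right; right
      exact ⟨e1, e2, by simp only [newP, e1, not_true, if_false, if_neg e2],
        by simp only [newh, e1, not_true, if_false, if_neg e2]⟩
  · left
    refine ⟨e1, ?_, by simp only [newP, e1, not_false_iff, if_true],
      by simp only [newh, e1, not_false_iff, if_true]⟩
    obtain ⟨c, hc, hmc⟩ := hmE
    rw [Finset.mem_insert] at hc
    rcases hc with rfl | hc
    · exact absurd hmc e1
    · exact ⟨c, hc, hmc⟩

lemma step {A : Finset V} {X P : V → ι → ℝ} {h r : V → ℝ} (hS : Stage G A X P h r) (v : V)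
    (hv : v ∉ A) (hvE : ∃ c ∈ A, G.Adj v c) (M δ : ℝ) (hδ : 0 < δ)
    (h1 : ∀ m s, m ∉ A → s ∉ A → (∃ c ∈ A, G.Adj m c) → (∃ c ∈ A, G.Adj s c) →
      d1 (P m) (P s) < h m + h s + 2 * δ)
    (h2 : 2 * δ ≤ M) (h3 : ∀ c ∈ A, r c ≤ tot V M δ) :
    Stage G (insert v A) (newX X P v M δ) (newP G A P v M δ) (newh G A h v δ)
      (newr h r v M δ) := by
  have hM : 0 ≤ M := by linarith
  have hcard : 0 ≤ (Fintype.card V : ℝ) * δ := by positivity
  have htot : tot V M δ = M + Fintype.card V * δ := rfl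
  have htM : M ≤ tot V M δ := by linarith
  have hhv := hS.hnonneg v hv hvE
  have fz := d1_full_zer (V := V) M δ hM hδ.le
  have zf : d1 zer (full M δ : Option V → ℝ) = tot V M δ := by rw [d1_comm]; exact fz
  have pz := fun m : V => d1_part_zer δ hδ.le m
  have zp : ∀ m : V, d1 (zer : Option V → ℝ) (part δ m) = δ := fun m => by
    rw [d1_comm]; exact pz m
  have zz : d1 (zer : Option V → ℝ) zer = 0 := d1_self _
  have ff : d1 (full M δ : Option V → ℝ) (full M δ) = 0 := d1_self _
  have fp := fun m : V => d1_full_part (V := V) M δ hM hδ.le m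
  have pf : ∀ m : V, d1 (part δ m : Option V → ℝ) (full M δ) = tot V M δ - δ := fun m => by
    rw [d1_comm]; exact fp m
  have hold : ∀ c ∈ A, c ≠ v := fun c hc h => hv (h ▸ hc)
  have hrv : newr h r v M δ v = h v + tot V M δ := by simp [newr]
  have hrc : ∀ c ∈ A, newr h r v M δ c = r c := fun c hc => by simp [newr, hold c hc]
  have hXc : ∀ c ∈ A, newX X P v M δ c = Sum.elim (X c) zer :=
    fun c hc => newX_ne X P v M δ (hold c hc)
  have hXv := newX_self X P v M δ
  -- heights of existing test points against `P v`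
  have hpv : ∀ m, m ∉ A → (∃ c ∈ A, G.Adj m c) → m ≠ v → h m + h v ≤ d1 (P m) (P v) :=
    fun m hm hmE hne => hS.pair m v hm hv hmE hvE hne
  have hpv' : ∀ m, m ∉ A → (∃ c ∈ A, G.Adj m c) → m ≠ v → h m + h v ≤ d1 (P v) (P m) :=
    fun m hm hmE hne => by rw [d1_comm]; exact hpv m hm hmE hne
  constructor
  · -- rpos
    intro c hc
    rcases Finset.mem_insert.1 hc with rfl | hcA
    · rw [hrv]; linarith
    · rw [hrc c hcA]; exact hS.rpos c hcA
  · -- hnonneg
    intro m hm hmE
    rw [Finset.mem_insert, not_or] at hm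
    rcases cases3 A P h v M δ m hmE with ⟨e1, e2, e3, e4⟩ | ⟨e1, e2, e3, e4⟩ | ⟨e1, e2, e3, e4⟩
    · rw [e4]; exact hS.hnonneg m hm.2 e2
    · rw [e4]; have := hS.hnonneg m hm.2 e2; linarith
    · rw [e4]
  · -- hatt
    intro m hm hmE
    rw [Finset.mem_insert, not_or] at hm
    rcases cases3 A P h v M δ m hmE with ⟨e1, e2, e3, e4⟩ | ⟨e1, e2, e3, e4⟩ | ⟨e1, e2, e3, e4⟩
    · obtain ⟨c, hc, hcd⟩ := hS.hatt m hm.2 e2
      refine ⟨c, Finset.mem_insert_of_mem hc, ?_⟩
      rw [e3, e4, hXc c hc, d1_elim, hcd, zz, add_zero]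
    · obtain ⟨c, hc, hcd⟩ := hS.hatt m hm.2 e2
      refine ⟨c, Finset.mem_insert_of_mem hc, ?_⟩
      rw [e3, e4, hXc c hc, d1_elim, hcd, pz]
    · refine ⟨v, Finset.mem_insert_self _ _, ?_⟩
      rw [e3, e4, hXv, d1_self]
  · -- hmin
    intro m hm hmE c hc
    rw [Finset.mem_insert, not_or] at hm
    rcases cases3 A P h v M δ m hmE with ⟨e1, e2, e3, e4⟩ | ⟨e1, e2, e3, e4⟩ | ⟨e1, e2, e3, e4⟩
    · have hp := hpv m hm.2 e2 hm.1
      rcases Finset.mem_insert.1 hc with rfl | hcA
      · rw [e3, e4, hXv, d1_elim, zf]; linarith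
      · have := hS.hmin m hm.2 e2 c hcA
        rw [e3, e4, hXc c hcA, d1_elim, zz]; linarith
    · have hp := hpv m hm.2 e2 hm.1
      rcases Finset.mem_insert.1 hc with rfl | hcA
      · rw [e3, e4, hXv, d1_elim, pf]; linarith
      · have := hS.hmin m hm.2 e2 c hcA
        rw [e3, e4, hXc c hcA, d1_elim, pz]; linarith
    · rw [e4]; exact d1_nonneg _ _
  · -- hadj
    intro m hm hmE c hc hmc
    rw [Finset.mem_insert, not_or] at hm
    rcases cases3 A P h v M δ m hmE with ⟨e1, e2, e3, e4⟩ | ⟨e1, e2, e3, e4⟩ | ⟨e1, e2, e3, e4⟩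
    · rcases Finset.mem_insert.1 hc with rfl | hcA
      · exact absurd hmc e1
      · have := hS.hadj m hm.2 e2 c hcA hmc
        rw [e3, e4, hXc c hcA, hrc c hcA, d1_elim, zz]; linarith
    · rcases Finset.mem_insert.1 hc with rfl | hcA
      · have := h1 m c hm.2 hv e2 hvE
        rw [e3, e4, hXv, hrv, d1_elim, pf]; linarith
      · have := hS.hadj m hm.2 e2 c hcA hmc
        rw [e3, e4, hXc c hcA, hrc c hcA, d1_elim, pz]; linarith
    · rcases Finset.mem_insert.1 hc with rfl | hcA
      · rw [e3, e4, hXv, hrv, d1_self]; linarith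
      · exact absurd ⟨c, hcA, hmc⟩ e2
  · -- hnadj
    intro m hm hmE c hc hmc
    rw [Finset.mem_insert, not_or] at hm
    rcases cases3 A P h v M δ m hmE with ⟨e1, e2, e3, e4⟩ | ⟨e1, e2, e3, e4⟩ | ⟨e1, e2, e3, e4⟩
    · rcases Finset.mem_insert.1 hc with rfl | hcA
      · have := hpv m hm.2 e2 hm.1
        rw [e3, e4, hXv, hrv, d1_elim, zf]; linarith
      · have := hS.hnadj m hm.2 e2 c hcA hmc
        rw [e3, e4, hXc c hcA, hrc c hcA, d1_elim, zz]; linarith
    · rcases Finset.mem_insert.1 hc with rfl | hcA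
      · exact absurd e1 hmc
      · have := hS.hnadj m hm.2 e2 c hcA hmc
        rw [e3, e4, hXc c hcA, hrc c hcA, d1_elim, pz]; linarith
    · rcases Finset.mem_insert.1 hc with rfl | hcA
      · exact absurd e1 hmc
      · have := h3 c hcA
        have h5 := d1_nonneg (P v) (X c)
        rw [e3, e4, hXc c hcA, hrc c hcA, d1_elim, fz]; linarith
  · -- pair
    intro m s hm hs hmE hsE hms
    rw [Finset.mem_insert, not_or] at hm hs
    rcases cases3 A P h v M δ m hmE with ⟨a1, a2, a3, a4⟩ | ⟨a1, a2, a3, a4⟩ |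
      ⟨a1, a2, a3, a4⟩ <;>
    rcases cases3 A P h v M δ s hsE with ⟨b1, b2, b3, b4⟩ | ⟨b1, b2, b3, b4⟩ |
      ⟨b1, b2, b3, b4⟩
    · have := hS.pair m s hm.2 hs.2 a2 b2 hms
      rw [a3, a4, b3, b4, d1_elim, zz]; linarith
    · have := hS.pair m s hm.2 hs.2 a2 b2 hms
      rw [a3, a4, b3, b4, d1_elim, zp]; linarith
    · have := hpv m hm.2 a2 hm.1
      rw [a3, a4, b3, b4, d1_elim, zf]; linarith
    · have := hS.pair m s hm.2 hs.2 a2 b2 hms
      rw [a3, a4, b3, b4, d1_elim, pz]; linarith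
    · have := hS.pair m s hm.2 hs.2 a2 b2 hms
      rw [a3, a4, b3, b4, d1_elim, d1_part_part δ hδ.le m s hms]; linarith
    · have := hpv m hm.2 a2 hm.1
      rw [a3, a4, b3, b4, d1_elim, pf]; linarith
    · have := hpv' s hs.2 b2 hs.1
      rw [a3, a4, b3, b4, d1_elim, fz]; linarith
    · have := hpv' s hs.2 b2 hs.1
      rw [a3, a4, b3, b4, d1_elim, fp]; linarith
    · rw [a3, a4, b3, b4, d1_self]; linarith
  · -- rmin
    intro c hc c' hc' hne
    rcases Finset.mem_insert.1 hc with rfl | hcA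
    · rcases Finset.mem_insert.1 hc' with rfl | hcA'
      · exact absurd rfl hne
      · have := hS.hmin c hv hvE c' hcA'
        rw [hXv, hrv, hXc c' hcA', d1_elim, fz]; linarith
    · rcases Finset.mem_insert.1 hc' with rfl | hcA'
      · have := h3 c hcA
        have h5 := d1_nonneg (X c) (P c')
        rw [hXv, hXc c hcA, hrc c hcA, d1_elim, zf]; linarith
      · have := hS.rmin c hcA c' hcA' hne
        rw [hXc c hcA, hXc c' hcA', hrc c hcA, d1_elim, zz]; linarith
  · -- radj
    intro c hc c' hc' hcc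
    rcases Finset.mem_insert.1 hc with rfl | hcA
    · rcases Finset.mem_insert.1 hc' with rfl | hcA'
      · exact absurd hcc (G.irrefl)
      · have := hS.hadj c hv hvE c' hcA' hcc
        rw [hXv, hrv, hXc c' hcA', hrc c' hcA', d1_elim, fz]; linarith
    · rcases Finset.mem_insert.1 hc' with rfl | hcA'
      · have := hS.hadj c' hv hvE c hcA hcc.symm
        rw [d1_comm] at this
        rw [hXv, hrv, hXc c hcA, hrc c hcA, d1_elim, zf]; linarith
      · have := hS.radj c hcA c' hcA' hcc
        rw [hXc c hcA, hXc c' hcA', hrc c hcA, hrc c' hcA', d1_elim, zz]; linarith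
  · -- rnadj
    intro c hc c' hc' hne hcc
    rcases Finset.mem_insert.1 hc with rfl | hcA
    · rcases Finset.mem_insert.1 hc' with rfl | hcA'
      · exact absurd rfl hne
      · have := hS.hnadj c hv hvE c' hcA' hcc
        rw [hXv, hrv, hXc c' hcA', hrc c' hcA', d1_elim, fz]; linarith
    · rcases Finset.mem_insert.1 hc' with rfl | hcA'
      · have := hS.hnadj c' hv hvE c hcA (fun h => hcc h.symm)
        rw [d1_comm] at this
        rw [hXv, hrv, hXc c hcA, hrc c hcA, d1_elim, zf]; linarith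
      · have := hS.rnadj c hcA c' hcA' hne hcc
        rw [hXc c hcA, hXc c' hcA', hrc c hcA, hrc c' hcA', d1_elim, zz]; linarith

lemma att_step {A : Finset V} {X P : V → ι → ℝ} {h r : V → ℝ} (hS : Stage G A X P h r)
    (hA : Att A X r) (v : V) (hv : v ∉ A) (hvE : ∃ c ∈ A, G.Adj v c) (M δ : ℝ) (hδ : 0 ≤ δ)
    (hM : 0 ≤ M) : Att (insert v A) (newX X P v M δ) (newr h r v M δ) := by
  have hold : ∀ c ∈ A, c ≠ v := fun c hc h => hv (h ▸ hc)
  intro c hc
  rcases Finset.mem_insert.1 hc with rfl | hcA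
  · obtain ⟨c', hc', hd⟩ := hS.hatt c hv hvE
    refine ⟨c', Finset.mem_insert_of_mem hc', hold c' hc', ?_⟩
    rw [newX_self, newX_ne _ _ _ _ _ (hold c' hc'), d1_elim, hd, d1_full_zer M δ hM hδ]
    simp [newr]
  · obtain ⟨c', hc', hne, hd⟩ := hA c hcA
    refine ⟨c', Finset.mem_insert_of_mem hc', hne, ?_⟩
    rw [newX_ne _ _ _ _ _ (hold c hcA), newX_ne _ _ _ _ _ (hold c' hc'), d1_elim, hd, d1_self]
    simp [newr, hold c hcA]

/-- The starting stage with one inserted vertex. -/
lemma stage_one (a : V) : Stage G {a} (fun _ => (Empty.elim : Empty → ℝ))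
    (fun _ => (Empty.elim : Empty → ℝ)) (fun _ => 0) (fun _ => 1) := by
  have hz : ∀ x y : Empty → ℝ, d1 x y = 0 := fun x y => by simp [d1]
  constructor
  · intro c _; norm_num
  · intro m _ _; exact le_rfl
  · intro m _ _; exact ⟨a, by simp, hz _ _⟩
  · intro m _ _ c _; rw [hz]
  · intro m _ _ c _ _; rw [hz]; norm_num
  · intro m _ hE c hc hmc
    obtain ⟨c', hc', hmc'⟩ := hE
    rw [Finset.mem_singleton] at hc hc'
    subst hc hc'
    exact absurd hmc' hmc
  · intro m s _ _ _ _ _; rw [hz]; norm_num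
  · intro c hc c' hc' hne
    rw [Finset.mem_singleton] at hc hc'
    exact absurd (hc'.trans hc.symm) hne
  · intro c hc c' hc' hcc
    rw [hz]; norm_num
  · intro c hc c' hc' hne
    rw [Finset.mem_singleton] at hc hc'
    exact absurd (hc.trans hc'.symm) hne

/-- In a connected graph every proper non-empty vertex set has a neighbour outside. -/
lemma exists_boundary (hG : G.Connected) (A : Finset V) (hA : A.Nonempty)
    (hne : A ≠ Finset.univ) : ∃ v, v ∉ A ∧ ∃ c ∈ A, G.Adj v c := by
  by_contra hcon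
  push Not at hcon
  obtain ⟨a, ha⟩ := hA
  apply hne
  rw [Finset.eq_univ_iff_forall]
  intro b
  have hr : G.Reachable a b := hG.preconnected a b
  obtain ⟨w⟩ := hr
  induction w with
  | nil => exact ha
  | @cons u v' _ h _ ih =>
    apply ih
    by_contra hv
    exact hcon v' hv u ha h.symm

lemma exists_stage (hG : G.Connected) [Nontrivial V] (k : ℕ) (hk : k + 2 ≤ Fintype.card V) :
    ∃ (A : Finset V) (ι : Type) (_ : Fintype ι) (X P : V → ι → ℝ) (h r : V → ℝ),
      A.card = k + 2 ∧ Stage G A X P h r ∧ Att A X r := by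
  induction k with
  | zero =>
    obtain ⟨a⟩ := hG.nonempty
    have h1 : ({a} : Finset V) ≠ Finset.univ := by
      intro h
      have := congrArg Finset.card h
      rw [Finset.card_singleton, Finset.card_univ] at this
      omega
    obtain ⟨v, hv, hvE⟩ := exists_boundary hG {a} ⟨a, by simp⟩ h1
    have hcard : (0 : ℝ) < Fintype.card V := by
      have : 0 < Fintype.card V := Fintype.card_pos
      exact_mod_cast this
    have hcard1 : (1 : ℝ) ≤ Fintype.card V := by
      have : 0 < Fintype.card V := Fintype.card_pos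
      exact_mod_cast this
    have hδ : (0 : ℝ) < 1 / (4 * Fintype.card V) := by positivity
    have hδ' : (1 : ℝ) / (4 * Fintype.card V) ≤ 1 / 4 := by
      apply one_div_le_one_div_of_le <;> linarith
    have ht : tot V (3 / 4) (1 / (4 * Fintype.card V)) = 1 := by
      unfold tot
      field_simp
      norm_num
    have hst := stage_one (G := G) a
    refine ⟨insert v {a}, _, inferInstance, _, _, _, _, ?_, step hst v hv hvE (3 / 4)
      (1 / (4 * Fintype.card V)) hδ ?_ (by linarith) (fun c _ => by rw [ht]), ?_⟩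
    · rw [Finset.card_insert_of_notMem hv, Finset.card_singleton]
    · intro m s _ _ _ _
      simp only [d1, Finset.univ_eq_empty, Finset.sum_empty]
      linarith
    · have hva : v ≠ a := by simpa using hv
      intro c hc
      rcases Finset.mem_insert.1 hc with rfl | hcA
      · refine ⟨a, by simp, hva.symm, ?_⟩
        rw [newX_self, newX_ne _ _ _ _ _ hva.symm, d1_elim, d1_full_zer _ _ (by norm_num) hδ.le]
        simp [newr, d1]
      · rw [Finset.mem_singleton] at hcA
        subst hcA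
        refine ⟨v, by simp, hva, ?_⟩
        rw [newX_self, newX_ne _ _ _ _ _ hva.symm, d1_elim, d1_comm zer,
          d1_full_zer _ _ (by norm_num) hδ.le, ht]
        simp [newr, d1, hva.symm]
  | succ k ih =>
    obtain ⟨A, ι, _, X, P, h, r, hc, hS, hA⟩ := ih (by omega)
    have h1 : A ≠ Finset.univ := by
      intro h
      rw [h, Finset.card_univ] at hc
      omega
    obtain ⟨v, hv, hvE⟩ := exists_boundary hG A (Finset.card_pos.1 (by omega)) h1
    set D : ℝ := 1 + ∑ m, ∑ s, |d1 (P m) (P s) - h m - h s| with hD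
    have hD0 : 0 ≤ ∑ m, ∑ s, |d1 (P m) (P s) - h m - h s| :=
      Finset.sum_nonneg fun _ _ => Finset.sum_nonneg fun _ _ => abs_nonneg _
    have hD1 : ∀ m s, d1 (P m) (P s) - h m - h s < D := by
      intro m s
      have e1 : |d1 (P m) (P s) - h m - h s| ≤ ∑ s, |d1 (P m) (P s) - h m - h s| :=
        Finset.single_le_sum (f := fun s => |d1 (P m) (P s) - h m - h s|)
          (fun _ _ => abs_nonneg _) (Finset.mem_univ s)
      have e2 : ∑ s, |d1 (P m) (P s) - h m - h s| ≤ ∑ m, ∑ s, |d1 (P m) (P s) - h m - h s| :=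
        Finset.single_le_sum (f := fun m => ∑ s, |d1 (P m) (P s) - h m - h s|)
          (fun _ _ => Finset.sum_nonneg fun _ _ => abs_nonneg _) (Finset.mem_univ m)
      have e3 := le_abs_self (d1 (P m) (P s) - h m - h s)
      linarith
    set R : ℝ := ∑ c, |r c| with hR
    have hR0 : 0 ≤ R := Finset.sum_nonneg fun _ _ => abs_nonneg _
    have hR1 : ∀ c, r c ≤ R := by
      intro c
      have e1 : |r c| ≤ R :=
        Finset.single_le_sum (f := fun c => |r c|) (fun _ _ => abs_nonneg _) (Finset.mem_univ c)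
      exact (le_abs_self _).trans e1
    have hDpos : 0 < D := by linarith
    have hcd : 0 ≤ (Fintype.card V : ℝ) * D := by positivity
    refine ⟨insert v A, _, inferInstance, _, _, _, _, ?_, step hS v hv hvE (2 * D + R) D hDpos
      ?_ (by linarith) ?_, att_step hS hA v hv hvE _ _ hDpos.le (by linarith)⟩
    · rw [Finset.card_insert_of_notMem hv, hc]
    · intro m s _ _ _ _
      have := hD1 m s
      linarith
    · intro c _
      have := hR1 c
      unfold tot
      linarith

/-- Every finite connected graph with at least two vertices has an `ℓ_1`-embeddable SIG-metric. -/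
theorem exists_sig_metric (hG : G.Connected) [Nontrivial V] :
    ∃ d : V → V → ℝ, IsSIGMetric G d ∧ L1Embeddable d := by
  have h2 : 2 ≤ Fintype.card V := Fintype.one_lt_card
  obtain ⟨A, ι, _, X, P, h, r, hc, hS, hA⟩ := exists_stage (G := G) hG (Fintype.card V - 2)
    (by omega)
  have hAu : A = Finset.univ := by
    rw [← Finset.card_eq_iff_eq_univ]
    omega
  subst hAu
  have hrad : ∀ i, radius (fun i j => d1 (X i) (X j)) i = r i := by
    intro i
    obtain ⟨c, _, hci, hcd⟩ := hA i (Finset.mem_univ i)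
    have hset : IsLeast {x | ∃ j, j ≠ i ∧ x = d1 (X i) (X j)} (r i) := by
      refine ⟨⟨c, hci, hcd.symm⟩, ?_⟩
      rintro x ⟨j, hj, rfl⟩
      exact hS.rmin i (Finset.mem_univ _) j (Finset.mem_univ _) hj
    exact hset.csInf_eq
  refine ⟨fun i j => d1 (X i) (X j), ⟨⟨fun _ _ => d1_nonneg _ _, fun _ _ => d1_comm _ _, ?_,
    fun _ _ _ => d1_triangle _ _ _⟩, ?_, ?_⟩, ?_⟩
  · intro i j
    constructor
    · intro hij
      by_contra hne
      have e1 := hS.rmin i (Finset.mem_univ _) j (Finset.mem_univ _) (Ne.symm hne)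
      have e2 := hS.rpos i (Finset.mem_univ _)
      have e3 : d1 (X i) (X j) = 0 := hij
      linarith
    · rintro rfl
      exact d1_self _
  · intro i j hij
    rw [hrad, hrad]
    exact hS.radj i (Finset.mem_univ _) j (Finset.mem_univ _) hij
  · intro i j hne hij
    rw [hrad, hrad]
    exact hS.rnadj i (Finset.mem_univ _) j (Finset.mem_univ _) hne hij
  · refine ⟨Fintype.card ι, fun i k => X i ((Fintype.equivFin ι).symm k), fun i j => ?_⟩
    exact Equiv.sum_comp (Fintype.equivFin ι).symm (fun k => |X i k - X j k|)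

end Q122
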