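import Mathlib

set_option autoImplicit false

/-!
# Vector flows on oriented multigraphs (loops and parallel edges allowed)
-/

namespace Q122.VFlow

variable {V E : Type}

/-- `f` is a flow: at every vertex `v` the sum over the non-loop edges with tail `v` equals the sum
over the non-loop edges with head `v`. The edge `e` is oriented from `tl e` to `hd e`. -/
def IsFlow [Fintype E] [DecidableEq V] {A : Type} [AddCommMonoid A] (tl hd : E → V) (f : E → A) :
    Prop :=
  ∀ v, ∑ e with tl e = v ∧ hd e ≠ v, f e = ∑ e with hd e = v ∧ tl e ≠ v, f e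

/-- An `S^2`-flow. -/
def IsS2Flow [Fintype E] [DecidableEq V] (tl hd : E → V) (φ : E → EuclideanSpace ℝ (Fin 3)) :
    Prop :=
  IsFlow tl hd φ ∧ ∀ e, ‖φ e‖ = 1

open Classical in
/-- The balanced vector of `v`, indexed by the distinct values of `φ`. -/
noncomputable def bal [Fintype E] (tl hd : E → V) (φ : E → EuclideanSpace ℝ (Fin 3)) (v : V)
    (x : Set.range φ) : ℚ :=
  ((Finset.univ.filter fun e => (tl e = v ∧ hd e ≠ v) ∧ φ e = x).card : ℚ) -
    ((Finset.univ.filter fun e => (hd e = v ∧ tl e ≠ v) ∧ φ e = x).card : ℚ)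

/-- The rank of the `ℚ`-linear span of the balanced vectors. -/
noncomputable def balRank [Fintype E] (tl hd : E → V) (φ : E → EuclideanSpace ℝ (Fin 3)) : ℕ :=
  Module.finrank ℚ (Submodule.span ℚ (Set.range (bal tl hd φ)))

end Q122.VFlow
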