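import Pool.Agent.Q122.VFlowDefs

set_option autoImplicit false

namespace Q122.VFlow

variable {V E : Type} [Fintype E] [DecidableEq V]

/-- Net outflow. -/
def bd {A : Type} [AddCommGroup A] (tl hd : E → V) (f : E → A) (v : V) : A :=
  ∑ e, ((if tl e = v then f e else 0) - (if hd e = v then f e else 0))

lemma isFlow_iff {A : Type} [AddCommGroup A] (tl hd : E → V) (f : E → A) :
    IsFlow tl hd f ↔ ∀ v, bd tl hd f v = 0 := by
  unfold IsFlow bd
  refine forall_congr' fun v => ?_
  rw [← sub_eq_zero, Finset.sum_filter, Finset.sum_filter, ← Finset.sum_sub_distrib]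
  have : ∀ e, ((if tl e = v ∧ hd e ≠ v then f e else 0) - if hd e = v ∧ tl e ≠ v then f e else 0) =
      ((if tl e = v then f e else 0) - (if hd e = v then f e else 0)) := by
    intro e
    by_cases h1 : tl e = v <;> by_cases h2 : hd e = v <;> simp [h1, h2]
  simp only [this]

lemma sum_eq_of_two [DecidableEq E] {A : Type} [AddCommGroup A] (g g' : E → A) (e1 e2 : E)
    (hne : e1 ≠ e2) (h : ∀ e, e ≠ e1 → e ≠ e2 → g e = g' e)
    (h2 : g e1 + g e2 = g' e1 + g' e2) : ∑ e, g e = ∑ e, g' e := by
  have key : ∀ k : E → A, ∑ e, k e = k e1 + k e2 + ∑ e ∈ (Finset.univ.erase e1).erase e2, k e := by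
    intro k
    rw [← Finset.add_sum_erase Finset.univ k (Finset.mem_univ e1),
      ← Finset.add_sum_erase (Finset.univ.erase e1) k (a := e2)
        (by simp [hne.symm]), add_assoc]
  rw [key g, key g', h2]
  congr 1
  refine Finset.sum_congr rfl fun e he => ?_
  simp only [Finset.mem_erase, Finset.mem_univ, and_true] at he
  exact h e he.2 he.1

lemma zmod2_cases (x : ZMod 2) : x = 0 ∨ x = 1 := by
  revert x; decide

/-- Even subgraphs support flows with values `±1`. -/
lemma euler [DecidableEq E] (n : ℕ) : ∀ (tl hd : E → V) (c : E → ZMod 2),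
    (Finset.univ.filter fun e => c e ≠ 0).card = n → (∀ v, bd tl hd c v = 0) →
    ∃ f : E → ℤ, (∀ v, bd tl hd f v = 0) ∧
      ∀ e, (c e = 0 → f e = 0) ∧ (c e ≠ 0 → f e = 1 ∨ f e = -1) := by
  induction n using Nat.strong_induction_on with
  | _ n ih =>
  intro tl hd c hn hc
  by_cases hloop : ∀ e, c e ≠ 0 → tl e = hd e
  · refine ⟨fun e => if c e = 0 then 0 else 1, fun v => ?_, fun e => ⟨fun h => by simp [h],
      fun h => by simp [h]⟩⟩
    unfold bd
    refine Finset.sum_eq_zero fun e _ => ?_
    by_cases h : c e = 0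
    · simp [h]
    · rw [hloop e h, sub_self]
  · push Not at hloop
    obtain ⟨e1, h1, hl1⟩ := hloop
    -- a second edge at `tl e1`
    obtain ⟨e2, hne, h2, hinc⟩ : ∃ e2, e2 ≠ e1 ∧ c e2 ≠ 0 ∧
        ((tl e2 = tl e1 ∧ hd e2 ≠ tl e1) ∨ (hd e2 = tl e1 ∧ tl e2 ≠ tl e1)) := by
      by_contra hcon
      push Not at hcon
      have := hc (tl e1)
      unfold bd at this
      rw [Finset.sum_eq_single e1] at this
      · rw [if_pos rfl, if_neg (fun h => hl1 h.symm), sub_zero] at this
        exact h1 this
      · intro e _ he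
        by_cases h0 : c e = 0
        · simp [h0]
        · obtain ⟨k1, k2⟩ := hcon e he h0
          by_cases k3 : tl e = tl e1
          · rw [if_pos k3, if_pos (k1 k3), sub_self]
          · by_cases k4 : hd e = tl e1
            · exact absurd (k2 k4) k3
            · rw [if_neg k3, if_neg k4, sub_self]
      · intro h; exact absurd (Finset.mem_univ _) h
    have c1 : c e1 = 1 := (zmod2_cases _).resolve_left h1
    have c2 : c e2 = 1 := (zmod2_cases _).resolve_left h2
    set v := tl e1 with hv
    -- the smaller instance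
    obtain ⟨w, s, hs, hw⟩ : ∃ (w : V) (s : ℤ), (s = 1 ∨ s = -1) ∧
        ((tl e2 = v ∧ hd e2 = w ∧ s = -1) ∨ (tl e2 = w ∧ hd e2 = v ∧ s = 1)) := by
      rcases hinc with ⟨h3, _⟩ | ⟨h3, _⟩
      · exact ⟨hd e2, -1, Or.inr rfl, Or.inl ⟨h3, rfl, rfl⟩⟩
      · exact ⟨tl e2, 1, Or.inl rfl, Or.inr ⟨rfl, h3, rfl⟩⟩
    have hcard : (Finset.univ.filter fun e => Function.update c e2 0 e ≠ 0).card < n := by
      rw [← hn]
      apply Finset.card_lt_card
      rw [Finset.ssubset_iff_of_subset]
      · refine ⟨e2, by simp [h2], by simp⟩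
      · intro e he
        simp only [Finset.mem_filter, Finset.mem_univ, true_and] at he ⊢
        by_cases h : e = e2
        · subst h; simp at he
        · rwa [Function.update_of_ne h] at he
    obtain ⟨f', hf', hval⟩ := ih _ hcard (Function.update tl e1 w) hd (Function.update c e2 0) rfl (by
      intro v'
      refine Eq.trans (Eq.symm ?_) (hc v')
      unfold bd
      refine sum_eq_of_two _ _ e1 e2 hne.symm ?_ ?_
      · intro e k1 k2
        rw [Function.update_of_ne k1, Function.update_of_ne k2]
      · rw [Function.update_self, Function.update_of_ne hne, Function.update_self,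
          Function.update_of_ne hne.symm, c1, c2]
        rcases hw with ⟨k1, k2, _⟩ | ⟨k1, k2, _⟩
        · rw [k1, k2, ← hv]
          by_cases m1 : v = v' <;> by_cases m2 : w = v' <;> by_cases m3 : hd e1 = v' <;>
            simp only [m1, m2, m3, if_true, if_false] <;> decide
        · rw [k1, k2, ← hv]
          by_cases m1 : v = v' <;> by_cases m2 : w = v' <;> by_cases m3 : hd e1 = v' <;>
            simp only [m1, m2, m3, if_true, if_false] <;> decide)
    have hv1 := (hval e1).2 (by rw [Function.update_of_ne hne.symm]; exact h1)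
    have hv2 := (hval e2).1 (by rw [Function.update_self])
    refine ⟨Function.update f' e2 (s * f' e1), fun v' => ?_, fun e => ?_⟩
    · refine Eq.trans ?_ (hf' v')
      unfold bd
      refine sum_eq_of_two _ _ e1 e2 hne.symm ?_ ?_
      · intro e k1 k2
        rw [Function.update_of_ne k1, Function.update_of_ne k2]
      · rw [Function.update_self, Function.update_of_ne hne, Function.update_self,
          Function.update_of_ne hne.symm, hv2]
        rcases hw with ⟨k1, k2, k3⟩ | ⟨k1, k2, k3⟩
        · rw [k1, k2, k3, ← hv]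
          by_cases m1 : v = v' <;> by_cases m2 : w = v' <;> by_cases m3 : hd e1 = v' <;>
            simp [m1, m2, m3]
        · rw [k1, k2, k3, ← hv]
          by_cases m1 : v = v' <;> by_cases m2 : w = v' <;> by_cases m3 : hd e1 = v' <;>
            simp [m1, m2, m3]
    · by_cases h : e = e2
      · subst h
        rw [Function.update_self]
        refine ⟨fun h => absurd h h2, fun _ => ?_⟩
        rcases hs with rfl | rfl <;> rcases hv1 with h | h <;> simp [h]
      · rw [Function.update_of_ne h]
        have := hval e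
        rwa [Function.update_of_ne h] at this

/-- Two even subgraphs that cover all edges give a 4-flow. -/
lemma four_flow [DecidableEq E] (tl hd : E → V) (c1 c2 : E → ZMod 2)
    (h1 : ∀ v, bd tl hd c1 v = 0) (h2 : ∀ v, bd tl hd c2 v = 0)
    (hcov : ∀ e, c1 e ≠ 0 ∨ c2 e ≠ 0) :
    ∃ f : E → ℤ, (∀ v, bd tl hd f v = 0) ∧ ∀ e, 0 < |f e| ∧ |f e| < 4 := by
  obtain ⟨f1, hf1, g1⟩ := euler _ tl hd c1 rfl h1
  obtain ⟨f2, hf2, g2⟩ := euler _ tl hd c2 rfl h2
  refine ⟨fun e => f1 e + 2 * f2 e, fun v => ?_, fun e => ?_⟩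
  · have e1 := hf1 v
    have e2 := hf2 v
    have : bd tl hd (fun e => f1 e + 2 * f2 e) v = bd tl hd f1 v + 2 * bd tl hd f2 v := by
      unfold bd
      rw [Finset.mul_sum, ← Finset.sum_add_distrib]
      refine Finset.sum_congr rfl fun e _ => ?_
      split_ifs <;> ring
    rw [this, e1, e2]
    norm_num
  · have k1 := g1 e
    have k2 := g2 e
    rcases eq_or_ne (c1 e) 0 with m1 | m1 <;> rcases eq_or_ne (c2 e) 0 with m2 | m2
    · rcases hcov e with h | h
      · exact absurd m1 h
      · exact absurd m2 h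
    · have n1 := k1.1 m1
      rcases k2.2 m2 with n2 | n2 <;> simp [n1, n2]
    · have n2 := k2.1 m2
      rcases k1.2 m1 with n1 | n1 <;> simp [n1, n2]
    · rcases k1.2 m1 with n1 | n1 <;> rcases k2.2 m2 with n2 | n2 <;> simp [n1, n2]

/-! ### Joins -/

lemma bd_add {A : Type} [AddCommGroup A] (tl hd : E → V) (f g : E → A) (v : V) :
    bd tl hd (fun e => f e + g e) v = bd tl hd f v + bd tl hd g v := by
  unfold bd
  rw [← Finset.sum_add_distrib]
  refine Finset.sum_congr rfl fun e _ => ?_
  split_ifs <;> simp [add_comm]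

/-- Existence of a `T`-join inside the edges satisfying `F`. -/
lemma tjoin [Fintype V] [DecidableEq E] (tl hd : E → V) (F : E → Prop) [DecidablePred F]
    (T : V → ZMod 2)
    (h : ∀ y : V → ZMod 2, (∀ e, F e → y (tl e) = y (hd e)) → ∑ v, T v * y v = 0) :
    ∃ x : E → ZMod 2, (∀ e, ¬ F e → x e = 0) ∧ ∀ v, bd tl hd x v = T v := by
  let D : (E → ZMod 2) →ₗ[ZMod 2] (V → ZMod 2) :=
    { toFun := fun x v => bd tl hd (fun e => if F e then x e else 0) v
      map_add' := by
        intro x y
        funext v
        rw [Pi.add_apply, ← bd_add]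
        congr 1
        funext e
        split_ifs <;> simp
      map_smul' := by
        intro m x
        funext v
        simp only [bd, RingHom.id_apply, Pi.smul_apply, smul_eq_mul, Finset.mul_sum]
        refine Finset.sum_congr rfl fun e _ => ?_
        split_ifs <;> ring }
  by_cases hT : T ∈ LinearMap.range D
  · obtain ⟨x, hx⟩ := hT
    refine ⟨fun e => if F e then x e else 0, fun e he => if_neg he, fun v => ?_⟩
    exact congrFun hx v
  · exfalso
    obtain ⟨f, hf, hker⟩ := Submodule.exists_le_ker_of_notMem hT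
    have hsum : ∀ z : V → ZMod 2, f z = ∑ v, z v * f (Pi.single v 1) := by
      intro z
      rw [LinearMap.pi_apply_eq_sum_univ f z]
      simp only [smul_eq_mul]
      refine Finset.sum_congr rfl fun v _ => ?_
      congr 2
      funext i
      simp [Pi.single_apply, eq_comm]
    apply hf
    rw [hsum]
    apply h
    intro e he
    have h1 : D (Pi.single e 1) = Pi.single (tl e) 1 - Pi.single (hd e) 1 := by
      funext v
      change bd tl hd (fun e' => if F e' then (Pi.single e 1 : E → ZMod 2) e' else 0) v = _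
      unfold bd
      rw [Finset.sum_eq_single e]
      · simp [he, Pi.single_apply, eq_comm]
      · intro e' _ hne
        simp [Pi.single_eq_of_ne hne]
      · intro hh; exact absurd (Finset.mem_univ _) hh
    have h2 : f (D (Pi.single e 1)) = 0 := hker ⟨_, rfl⟩
    rw [h1, map_sub, sub_eq_zero] at h2
    exact h2

/-! ### Choosing two classes -/

lemma three_vectors : ∀ x y z : ZMod 2 × ZMod 2,
    x = 0 ∨ y = 0 ∨ z = 0 ∨ x = y ∨ y = z ∨ x = z ∨ x + y + z = 0 := by decide

lemma choose_two {I : Type} [DecidableEq I] (w : I → ZMod 2 × ZMod 2) (A : Finset I) :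
    ∃ R : Finset I, R.card ≤ 2 ∧ ∑ i ∈ R, w i = ∑ i ∈ A, w i := by
  induction A using Finset.induction_on with
  | empty => exact ⟨∅, by simp, rfl⟩
  | insert a A ha ih =>
    obtain ⟨R, hR, hsum⟩ := ih
    rw [Finset.sum_insert ha, ← hsum]
    by_cases haR : a ∈ R
    · refine ⟨R.erase a, (Finset.card_erase_le).trans hR, ?_⟩
      rw [← Finset.add_sum_erase R w haR, ← add_assoc]
      have : ∀ x : ZMod 2 × ZMod 2, x + x = 0 := by decide
      rw [this, zero_add]
    · rcases Nat.lt_or_ge R.card 2 with h2 | h2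
      · exact ⟨insert a R, by rw [Finset.card_insert_of_notMem haR]; omega,
          Finset.sum_insert haR⟩
      · obtain ⟨b, c, hbc, rfl⟩ := Finset.card_eq_two.1 (le_antisymm hR h2)
        rw [Finset.sum_pair hbc]
        simp only [Finset.mem_insert, Finset.mem_singleton, not_or] at haR
        obtain ⟨hab, hac⟩ := haR
        have h2x : ∀ x : ZMod 2 × ZMod 2, x + x = 0 := by decide
        rcases three_vectors (w a) (w b) (w c) with h | h | h | h | h | h | h
        · exact ⟨{b, c}, Finset.card_le_two, by rw [Finset.sum_pair hbc, h, zero_add]⟩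
        · exact ⟨{a, c}, Finset.card_le_two, by rw [Finset.sum_pair hac, h, zero_add]⟩
        · exact ⟨{a, b}, Finset.card_le_two, by rw [Finset.sum_pair hab, h, add_zero]⟩
        · exact ⟨{c}, by simp, by rw [Finset.sum_singleton, h, ← add_assoc, h2x, zero_add]⟩
        · exact ⟨{a}, by simp, by rw [Finset.sum_singleton, h, h2x, add_zero]⟩
        · exact ⟨{b}, by simp, by
            rw [Finset.sum_singleton, h, add_comm (w b), ← add_assoc, h2x, zero_add]⟩
        · exact ⟨∅, by simp, by rw [Finset.sum_empty, ← add_assoc, h]⟩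

/-- Integer vectors whose rational span has dimension at most two are generated over `ℤ` by two
integer vectors. -/
lemma two_generators {I W : Type} [Finite I] (g : W → I → ℤ)
    (h : Module.finrank ℚ (Submodule.span ℚ (Set.range fun w => fun i => ((g w i : ℤ) : ℚ))) ≤ 2) :
    ∃ s t : I → ℤ, ∀ w, ∃ a b : ℤ, g w = a • s + b • t := by
  have := Fintype.ofFinite I
  set L : Submodule ℤ (I → ℤ) := Submodule.span ℤ (Set.range g) with hL
  obtain ⟨n, ⟨B⟩⟩ := Submodule.nonempty_basis_of_pid (Pi.basisFun ℤ I) L
  -- the rational vectors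
  let c : (I → ℤ) →ₗ[ℤ] (I → ℚ) :=
    { toFun := fun x i => (x i : ℚ)
      map_add' := by intro x y; funext i; simp
      map_smul' := by intro m x; funext i; simp }
  have hcinj : Function.Injective c := by
    intro x y hxy
    funext i
    have h1 : ((x i : ℤ) : ℚ) = ((y i : ℤ) : ℚ) := congrFun hxy i
    exact_mod_cast h1
  have hliZ : LinearIndependent ℤ (fun k : Fin n => c (B k : I → ℤ)) := by
    have h1 : LinearIndependent ℤ (fun k : Fin n => (B k : I → ℤ)) :=
      B.linearIndependent.map' L.subtype (Submodule.ker_subtype L)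
    exact h1.map' c (LinearMap.ker_eq_bot.2 hcinj)
  have hliQ : LinearIndependent ℚ (fun k : Fin n => c (B k : I → ℤ)) :=
    (LinearIndependent.iff_fractionRing ℤ ℚ).1 hliZ
  have hmem : ∀ x ∈ L, c x ∈ Submodule.span ℚ (Set.range fun w => fun i => ((g w i : ℤ) : ℚ)) := by
    intro x hx
    rw [hL] at hx
    induction hx using Submodule.span_induction with
    | mem x hx =>
      obtain ⟨w, rfl⟩ := hx
      exact Submodule.subset_span ⟨w, rfl⟩
    | zero => rw [map_zero]; exact Submodule.zero_mem _
    | add x y _ _ hx hy => rw [map_add]; exact Submodule.add_mem _ hx hy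
    | smul a x _ hx =>
      rw [map_smul, ← Int.cast_smul_eq_zsmul ℚ]
      exact Submodule.smul_mem _ _ hx
  have hn : n ≤ 2 := by
    refine le_trans ?_ h
    have h2 : LinearIndependent ℚ (fun k : Fin n =>
        (⟨c (B k : I → ℤ), hmem _ (B k).2⟩ : Submodule.span ℚ
          (Set.range fun w => fun i => ((g w i : ℤ) : ℚ)))) :=
      LinearIndependent.of_comp (Submodule.subtype _) hliQ
    have h3 := h2.fintype_card_le_finrank
    simpa using h3
  have hrepr : ∀ w, g w = ∑ k, B.repr ⟨g w, Submodule.subset_span ⟨w, rfl⟩⟩ k • (B k : I → ℤ) := by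
    intro w
    have h4 := B.sum_repr ⟨g w, Submodule.subset_span ⟨w, rfl⟩⟩
    have h5 := congrArg Subtype.val h4
    refine h5.symm.trans ?_
    rw [Submodule.coe_sum]
    rfl
  interval_cases n
  · exact ⟨0, 0, fun w => ⟨0, 0, by rw [hrepr w]; simp⟩⟩
  · exact ⟨(B 0 : I → ℤ), 0, fun w => ⟨_, 0, by rw [hrepr w]; simp; rfl⟩⟩
  · exact ⟨(B 0 : I → ℤ), (B 1 : I → ℤ), fun w => ⟨_, _, by
      conv_lhs => rw [hrepr w]
      rw [Fin.sum_univ_two]⟩⟩

/-! ### The main theorem -/

/-- Signed incidence. -/
def dl (tl hd : E → V) (e : E) (v : V) : ℤ := (if tl e = v then 1 else 0) - (if hd e = v then 1 else 0)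

open Classical in
/-- The integer balanced vectors. -/
noncomputable def epsZ (tl hd : E → V) (φ : E → EuclideanSpace ℝ (Fin 3)) (v : V)
    (x : Set.range φ) : ℤ :=
  ∑ e, if (⟨φ e, e, rfl⟩ : Set.range φ) = x then dl tl hd e v else 0

lemma bal_eq (tl hd : E → V) (φ : E → EuclideanSpace ℝ (Fin 3)) (v : V) (x : Set.range φ) :
    bal tl hd φ v x = (epsZ tl hd φ v x : ℚ) := by
  classical
  unfold bal epsZ
  rw [Finset.card_filter, Finset.card_filter]
  push_cast
  rw [← Finset.sum_sub_distrib]
  refine Finset.sum_congr rfl fun e _ => ?_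
  have hx : ((⟨φ e, e, rfl⟩ : Set.range φ) = x) ↔ φ e = x := by
    rw [← Subtype.coe_inj]
  unfold dl
  by_cases h1 : tl e = v <;> by_cases h2 : hd e = v <;> by_cases h3 : φ e = x <;>
    simp [h1, h2, h3, hx]

theorem main [Fintype V] [DecidableEq E] (tl hd : E → V) (φ : E → EuclideanSpace ℝ (Fin 3))
    (hφ : IsS2Flow tl hd φ) (hr : balRank tl hd φ ≤ 2) :
    ∃ f : E → ℤ, IsFlow tl hd f ∧ ∀ e, 0 < |f e| ∧ |f e| < 4 := by
  classical
  let I := Set.range φ
  have hfinI : Finite I := Set.finite_range φ
  have : Fintype I := Fintype.ofFinite I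
  let cls : E → I := fun e => ⟨φ e, e, rfl⟩
  have hbal : bal tl hd φ = fun v x => ((epsZ tl hd φ v x : ℤ) : ℚ) := by
    funext v x
    exact bal_eq tl hd φ v x
  obtain ⟨s, t, hst⟩ := two_generators (epsZ tl hd φ) (by
    unfold balRank at hr
    rw [hbal] at hr
    exact hr)
  obtain ⟨R, hR, hRs⟩ := choose_two (fun i : I => ((s i : ZMod 2), (t i : ZMod 2))) Finset.univ
  -- sums over classes
  have hsumR : ∀ (R : Finset I) (v : V), ∑ i ∈ R, epsZ tl hd φ v i =
      ∑ e, if cls e ∈ R then dl tl hd e v else 0 := by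
    intro R v
    unfold epsZ
    rw [Finset.sum_comm]
    refine Finset.sum_congr rfl fun e _ => ?_
    rw [Finset.sum_ite_eq]
  have hpar : ∀ v, ((∑ i, epsZ tl hd φ v i : ℤ) : ZMod 2) =
      ((∑ i ∈ R, epsZ tl hd φ v i : ℤ) : ZMod 2) := by
    intro v
    obtain ⟨a, b, hab⟩ := hst v
    have h1 : ∀ A : Finset I, ((∑ i ∈ A, epsZ tl hd φ v i : ℤ) : ZMod 2) =
        a * (∑ i ∈ A, ((s i : ZMod 2), (t i : ZMod 2))).1 +
          b * (∑ i ∈ A, ((s i : ZMod 2), (t i : ZMod 2))).2 := by
      intro A
      rw [Prod.fst_sum, Prod.snd_sum, Finset.mul_sum, Finset.mul_sum, ← Finset.sum_add_distrib]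
      push_cast
      refine Finset.sum_congr rfl fun i _ => ?_
      rw [hab]
      simp
    rw [h1, h1, hRs]
  have hcast : ∀ (c : E → Prop) [DecidablePred c] (v : V),
      bd tl hd (fun e => if c e then (1 : ZMod 2) else 0) v =
        ((∑ e, if c e then dl tl hd e v else 0 : ℤ) : ZMod 2) := by
    intro c _ v
    unfold bd dl
    push_cast
    refine Finset.sum_congr rfl fun e _ => ?_
    split_ifs <;> simp
  -- the join
  obtain ⟨x, hx0, hx⟩ := tjoin tl hd (fun e => cls e ∉ R)
    (fun v => ((∑ i ∈ R, epsZ tl hd φ v i : ℤ) : ZMod 2)) (by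
    intro y hy
    let Y : V → ℤ := fun v => if y v = 0 then 0 else 1
    have hY : ∀ v, ((Y v : ℤ) : ZMod 2) = y v := by
      intro v
      simp only [Y]
      rcases zmod2_cases (y v) with h | h <;> simp [h]
    let mu : E → ℤ := fun e => Y (tl e) - Y (hd e)
    have hmu : ∀ e, ∑ v, Y v * dl tl hd e v = mu e := by
      intro e
      simp only [dl, mul_sub, mul_ite, mul_one, mul_zero, Finset.sum_sub_distrib,
        Finset.sum_ite_eq, Finset.mem_univ, if_true, mu]
    have hmu0 : ∀ e, cls e ∉ R → mu e = 0 := by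
      intro e he
      simp only [mu, Y, hy e he, sub_self]
    let m : I → ℤ := fun i => ∑ e, if cls e = i then mu e else 0
    have hm0 : ∀ i, i ∉ R → m i = 0 := by
      intro i hi
      refine Finset.sum_eq_zero fun e _ => ?_
      split_ifs with h
      · exact hmu0 e (h ▸ hi)
      · rfl
    -- the vector equation
    have hvec : ∑ i ∈ R, (m i : ℝ) • (i : EuclideanSpace ℝ (Fin 3)) = 0 := by
      have h1 : ∑ e, (mu e : ℝ) • φ e = 0 := by
        have h2 : ∀ v, ∑ e, (dl tl hd e v : ℝ) • φ e = 0 := by
          intro v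
          have h3 := (isFlow_iff tl hd φ).1 hφ.1 v
          refine Eq.trans ?_ h3
          unfold bd dl
          refine Finset.sum_congr rfl fun e _ => ?_
          split_ifs <;> simp
        have h4 : ∑ v, (Y v : ℝ) • ∑ e, (dl tl hd e v : ℝ) • φ e = 0 := by
          simp [h2]
        simp only [Finset.smul_sum, smul_smul] at h4
        rw [Finset.sum_comm] at h4
        refine Eq.trans ?_ h4
        refine Finset.sum_congr rfl fun e _ => ?_
        rw [← Finset.sum_smul, ← hmu e]
        push_cast
        rfl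
      have h5 : ∑ i : I, (m i : ℝ) • (i : EuclideanSpace ℝ (Fin 3)) = ∑ e, (mu e : ℝ) • φ e := by
        simp only [m]
        push_cast
        simp only [Finset.sum_smul]
        rw [Finset.sum_comm]
        refine Finset.sum_congr rfl fun e _ => ?_
        rw [Finset.sum_eq_single (cls e)]
        · simp [cls]
        · intro i _ hi
          simp [Ne.symm hi]
        · intro h; exact absurd (Finset.mem_univ _) h
      rw [h1] at h5
      rw [← h5]
      refine Finset.sum_subset (Finset.subset_univ R) fun i _ hi => ?_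
      rw [hm0 i hi]
      simp
    have hnorm : ∀ i : I, ‖(i : EuclideanSpace ℝ (Fin 3))‖ = 1 := by
      rintro ⟨_, e, rfl⟩
      exact hφ.2 e
    have heven : ((∑ i ∈ R, m i : ℤ) : ZMod 2) = 0 := by
      obtain h0 | h1 | h2 : R.card = 0 ∨ R.card = 1 ∨ R.card = 2 := by omega
      · rw [Finset.card_eq_zero.1 h0]
        simp
      · obtain ⟨i, rfl⟩ := Finset.card_eq_one.1 h1
        rw [Finset.sum_singleton] at hvec ⊢
        have h3 := congrArg norm hvec
        rw [norm_smul, hnorm i, mul_one, norm_zero, Real.norm_eq_abs, abs_eq_zero] at h3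
        have h4 : m i = 0 := by exact_mod_cast h3
        rw [h4]; rfl
      · obtain ⟨i, j, hij, rfl⟩ := Finset.card_eq_two.1 h2
        rw [Finset.sum_pair hij] at hvec ⊢
        have h3 := congrArg norm (eq_neg_of_add_eq_zero_left hvec)
        rw [norm_neg, norm_smul, norm_smul, hnorm i, hnorm j, mul_one, mul_one,
          Real.norm_eq_abs, Real.norm_eq_abs] at h3
        have h4 : |m i| = |m j| := by exact_mod_cast h3
        have h2z : ∀ z : ZMod 2, z + z = 0 := by decide
        rcases abs_eq_abs.1 h4 with h5 | h5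
        · rw [h5]; push_cast; exact h2z _
        · rw [h5]; simp
    refine Eq.trans ?_ heven
    have h6 : ∀ v, ((∑ i ∈ R, epsZ tl hd φ v i : ℤ) : ZMod 2) * y v =
        ((∑ i ∈ R, Y v * epsZ tl hd φ v i : ℤ) : ZMod 2) := by
      intro v
      rw [← Finset.mul_sum]
      push_cast
      rw [hY, mul_comm]
    simp only [h6]
    rw [← Int.cast_sum]
    congr 1
    rw [Finset.sum_comm]
    refine Finset.sum_congr rfl fun i _ => ?_
    simp only [epsZ, Finset.mul_sum, m]
    rw [Finset.sum_comm]
    refine Finset.sum_congr rfl fun e _ => ?_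
    rw [← hmu e]
    by_cases hc : cls e = i
    · rw [if_pos hc]
      refine Finset.sum_congr rfl fun v _ => ?_
      rw [if_pos hc]
    · rw [if_neg hc]
      refine Finset.sum_eq_zero fun v _ => ?_
      rw [if_neg hc, mul_zero])
  obtain ⟨f, hf, hval⟩ := four_flow tl hd (fun e => (if cls e ∈ R then 1 else 0) + x e)
    (fun e => if cls e ∉ R then 1 else 0) (by
      intro v
      rw [bd_add, hcast (fun e => cls e ∈ R) v, hx v, hsumR R v]
      have h2z : ∀ z : ZMod 2, z + z = 0 := by decide
      exact h2z _) (by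
      intro v
      rw [hcast (fun e => cls e ∉ R) v]
      have h1 := hpar v
      rw [hsumR, hsumR] at h1
      simp only [Finset.mem_univ, if_true] at h1
      have h2 : (∑ e, if cls e ∉ R then dl tl hd e v else 0) =
          (∑ e, dl tl hd e v) - ∑ e, (if cls e ∈ R then dl tl hd e v else 0) := by
        rw [← Finset.sum_sub_distrib]
        refine Finset.sum_congr rfl fun e _ => ?_
        by_cases h : cls e ∈ R <;> simp [h]
      rw [h2, Int.cast_sub, h1, sub_self]) (by
      intro e
      by_cases h : cls e ∈ R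
      · left
        rw [if_pos h, hx0 e (by simpa using h)]
        decide
      · right
        rw [if_pos h]
        decide)
  exact ⟨f, (isFlow_iff tl hd f).2 hf, hval⟩

end Q122.VFlow
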